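import Mathlib

/-!
# Incidence matrices and algebraic duality of multigraphs

A multigraph is given by `s t : E → V`.  An algebraic dual is a multigraph `l r : E → F` on the
same edges whose coboundaries are exactly the rational circulations of the first one.
-/

namespace Pool.Agent.Red

open Finset Matrix Module

variable {V E F : Type*} [Fintype V] [DecidableEq V] [Fintype E] [DecidableEq E] [Fintype F]
  [DecidableEq F]

/-- The incidence matrix. -/
def inc (s t : E → V) : Matrix V E ℚ :=
  fun v e => (if t e = v then 1 else 0) - (if s e = v then 1 else 0)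

/-- The multigraph is connected. -/
def Conn (s t : E → V) : Prop :=
  ∀ φ : V → ℚ, (∀ e, φ (s e) = φ (t e)) → ∀ u v, φ u = φ v

theorem transpose_mulVec (s t : E → V) (φ : V → ℚ) (e : E) :
    ((inc s t)ᵀ *ᵥ φ) e = φ (t e) - φ (s e) := by
  simp only [mulVec, dotProduct, transpose_apply, inc, sub_mul, ite_mul, one_mul, zero_mul,
    sum_sub_distrib, sum_ite_eq, mem_univ, if_true]

theorem rank_inc [Nonempty V] {s t : E → V} (h : Conn s t) :
    (inc s t).rank + 1 = Fintype.card V := by
  classical
  rw [← Matrix.rank_transpose]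
  have h1 := LinearMap.finrank_range_add_finrank_ker ((inc s t)ᵀ.mulVecLin)
  rw [Module.finrank_fintype_fun_eq_card] at h1
  have h2 : LinearMap.ker ((inc s t)ᵀ.mulVecLin) = Submodule.span ℚ {fun _ : V => (1 : ℚ)} := by
    ext φ
    rw [LinearMap.mem_ker, Submodule.mem_span_singleton]
    constructor
    · intro h3
      obtain ⟨v0⟩ := ‹Nonempty V›
      refine ⟨φ v0, ?_⟩
      ext v
      have h4 := h φ (fun e => by
        have h5 := congrFun h3 e
        rw [mulVecLin_apply, transpose_mulVec, Pi.zero_apply] at h5
        linarith) v0 v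
      simp [h4]
    · rintro ⟨a, rfl⟩
      ext e
      rw [mulVecLin_apply, transpose_mulVec]
      simp
  rw [h2, finrank_span_singleton] at h1
  · exact h1
  · obtain ⟨v0⟩ := ‹Nonempty V›
    intro h3
    have := congrFun h3 v0
    simp at this

theorem finrank_ker_inc [Nonempty V] {s t : E → V} (h : Conn s t) :
    finrank ℚ (LinearMap.ker (inc s t).mulVecLin) + Fintype.card V = Fintype.card E + 1 := by
  have h1 := LinearMap.finrank_range_add_finrank_ker ((inc s t).mulVecLin)
  rw [Module.finrank_fintype_fun_eq_card] at h1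
  have h2 := rank_inc h
  have h3 : finrank ℚ (LinearMap.range (inc s t).mulVecLin) = (inc s t).rank := rfl
  omega

/-- Coboundaries of the dual are circulations. -/
def Orth (s t : E → V) (l r : E → F) : Prop :=
  ∀ v x, ∑ e, inc s t v e * inc r l x e = 0

/-- Rational circulations are coboundaries of the dual. -/
def Full (s t : E → V) (l r : E → F) : Prop :=
  ∀ g : E → ℚ, (∀ v, ∑ e, inc s t v e * g e = 0) → ∃ φ : F → ℚ, ∀ e, g e = φ (l e) - φ (r e)

theorem Orth.range_le {s t : E → V} {l r : E → F} (h : Orth s t l r) :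
    LinearMap.range (inc r l)ᵀ.mulVecLin ≤ LinearMap.ker (inc s t).mulVecLin := by
  rintro g ⟨φ, rfl⟩
  rw [LinearMap.mem_ker]
  ext v
  rw [mulVecLin_apply, mulVecLin_apply, mulVec_mulVec, Pi.zero_apply]
  have h1 : inc s t * (inc r l)ᵀ = 0 := by
    ext v x
    rw [mul_apply]
    exact h v x
  rw [h1, zero_mulVec, Pi.zero_apply]

theorem Full.ker_le {s t : E → V} {l r : E → F} (h : Full s t l r) :
    LinearMap.ker (inc s t).mulVecLin ≤ LinearMap.range (inc r l)ᵀ.mulVecLin := by
  intro g hg
  rw [LinearMap.mem_ker] at hg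
  obtain ⟨φ, hφ⟩ := h g (fun v => by
    have := congrFun hg v
    rwa [mulVecLin_apply] at this)
  refine ⟨φ, ?_⟩
  ext e
  rw [mulVecLin_apply, transpose_mulVec, hφ]

theorem finrank_range_transpose [Nonempty F] {l r : E → F} (h : Conn r l) :
    finrank ℚ (LinearMap.range (inc r l)ᵀ.mulVecLin) + 1 = Fintype.card F := by
  rw [← rank_inc h, ← Matrix.rank_transpose]
  rfl

/-- The genus is not negative. -/
theorem euler_le [Nonempty V] [Nonempty F] {s t : E → V} {l r : E → F} (h : Orth s t l r)
    (h1 : Conn s t) (h2 : Conn r l) : Fintype.card V + Fintype.card F ≤ Fintype.card E + 2 := by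
  have h3 := Submodule.finrank_mono h.range_le
  have h4 := finrank_ker_inc h1
  have h5 := finrank_range_transpose h2
  omega

theorem euler_ge [Nonempty V] [Nonempty F] {s t : E → V} {l r : E → F} (h : Full s t l r)
    (h1 : Conn s t) (h2 : Conn r l) : Fintype.card E + 2 ≤ Fintype.card V + Fintype.card F := by
  have h3 := Submodule.finrank_mono h.ker_le
  have h4 := finrank_ker_inc h1
  have h5 := finrank_range_transpose h2
  omega

/-- Euler's formula gives the algebraic duality. -/
theorem full_of_euler [Nonempty V] [Nonempty F] {s t : E → V} {l r : E → F} (h : Orth s t l r)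
    (h1 : Conn s t) (h2 : Conn r l)
    (he : Fintype.card V + Fintype.card F = Fintype.card E + 2) : Full s t l r := by
  have h4 := finrank_ker_inc h1
  have h5 := finrank_range_transpose h2
  have h6 : LinearMap.range (inc r l)ᵀ.mulVecLin = LinearMap.ker (inc s t).mulVecLin :=
    Submodule.eq_of_le_of_finrank_eq h.range_le (by omega)
  intro g hg
  have h7 : g ∈ LinearMap.range (inc r l)ᵀ.mulVecLin := by
    rw [h6, LinearMap.mem_ker]
    ext v
    rw [mulVecLin_apply]
    exact hg v
  obtain ⟨φ, rfl⟩ := h7
  refine ⟨φ, fun e => ?_⟩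
  rw [mulVecLin_apply, transpose_mulVec]

end Pool.Agent.Red
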