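import Mathlib
import Pool.Agent.Work.MP_392c8e_co_red.Inc

/-!
# Graphs with an algebraic dual: deletion, contraction, subdivision
-/

namespace Pool.Agent.Red

open Finset

set_option linter.unusedSectionVars false

/-- The multigraph `s t` is the simple graph `G`. -/
def IsOf {V E : Type*} (G : SimpleGraph V) (s t : E → V) : Prop :=
  (∀ e, G.Adj (s e) (t e)) ∧ (∀ u v, G.Adj u v → ∃ e, s(s e, t e) = s(u, v)) ∧
    Function.Injective fun e => s(s e, t e)

/-- The graph has an algebraic dual. -/
def Pl {V : Type} [Fintype V] [DecidableEq V] (G : SimpleGraph V) : Prop :=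
  ∃ (E F : Type) (_ : Fintype E) (_ : DecidableEq E) (_ : Fintype F) (_ : DecidableEq F)
    (s t : E → V) (l r : E → F), IsOf G s t ∧ Orth s t l r ∧ Full s t l r

section

variable {V E F : Type*} [Fintype V] [DecidableEq V] [Fintype E] [DecidableEq E] [Fintype F]
  [DecidableEq F]

/-- Indicator function. -/
def ind {A : Type*} [DecidableEq A] (a b : A) : ℚ := if a = b then 1 else 0

theorem inc_comp {W : Type*} [DecidableEq W] (s t : E → V) (π : V → W) (w : W) (e : E) :
    inc (fun e => π (s e)) (fun e => π (t e)) w e = ∑ v, if π v = w then inc s t v e else 0 := by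
  have h1 : ∀ u : V, (if π u = w then (1 : ℚ) else 0) =
      ∑ v, if π v = w then (if u = v then (1 : ℚ) else 0) else 0 := by
    intro u
    have h2 : ∀ v : V, (if π v = w then (if u = v then (1 : ℚ) else 0) else 0) =
        if u = v then (if π v = w then (1 : ℚ) else 0) else 0 := by
      intro v
      split_ifs <;> rfl
    simp only [h2, sum_ite_eq, mem_univ, if_true]
  unfold inc
  rw [h1 (s e), h1 (t e), ← sum_sub_distrib]
  refine sum_congr rfl fun v _ => ?_
  split_ifs <;> simp

theorem sum_inc (s t : E → V) (φ : V → ℚ) (e : E) :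
    ∑ v, φ v * inc s t v e = φ (t e) - φ (s e) := by
  unfold inc
  simp only [mul_sub, mul_ite, mul_one, mul_zero, sum_sub_distrib, sum_ite_eq, mem_univ, if_true]

theorem sum_sub (p : E → Prop) [DecidablePred p] (f : E → ℚ) (h : ∀ e, ¬ p e → f e = 0) :
    ∑ e : {e // p e}, f e.1 = ∑ e, f e := by
  rw [← Finset.sum_subtype (univ.filter p) (by simp) f, sum_filter]
  refine sum_congr rfl fun e _ => ?_
  by_cases h1 : p e
  · rw [if_pos h1]
  · rw [if_neg h1, h e h1]

/-- Deletion: the faces on both sides of a deleted edge are identified. -/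
theorem dual_del {s t : E → V} {l r : E → F} (ho : Orth s t l r) (hf : Full s t l r)
    (p : E → Prop) [DecidablePred p] (S : Setoid F) [DecidableEq (Quotient S)]
    (hS : ∀ e, ¬ p e → S (l e) (r e))
    (hS2 : ∀ φ : F → ℚ, (∀ e, ¬ p e → φ (l e) = φ (r e)) → ∀ x y, S x y → φ x = φ y) :
    Orth (fun e : {e // p e} => s e.1) (fun e : {e // p e} => t e.1)
        (fun e : {e // p e} => (⟦l e.1⟧ : Quotient S)) (fun e : {e // p e} => ⟦r e.1⟧) ∧
      Full (fun e : {e // p e} => s e.1) (fun e : {e // p e} => t e.1)
        (fun e : {e // p e} => (⟦l e.1⟧ : Quotient S)) (fun e : {e // p e} => ⟦r e.1⟧) := by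
  constructor
  · intro v x
    have h1 : ∑ e : {e // p e}, inc s t v e.1 *
        inc (fun e => (⟦r e⟧ : Quotient S)) (fun e => ⟦l e⟧) x e.1 =
        ∑ e, inc s t v e * inc (fun e => (⟦r e⟧ : Quotient S)) (fun e => ⟦l e⟧) x e := by
      refine sum_sub p (fun e => inc s t v e *
        inc (fun e => (⟦r e⟧ : Quotient S)) (fun e => ⟦l e⟧) x e) fun e he => ?_
      have h2 : (⟦l e⟧ : Quotient S) = ⟦r e⟧ := Quotient.sound (hS e he)
      show inc s t v e * inc (fun e => (⟦r e⟧ : Quotient S)) (fun e => ⟦l e⟧) x e = 0
      unfold inc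
      simp only [h2]
      rw [sub_self, mul_zero]
    refine Eq.trans ?_ (h1.trans ?_)
    · exact sum_congr rfl fun e _ => rfl
    · have h3 : ∀ e, inc s t v e * inc (fun e => (⟦r e⟧ : Quotient S)) (fun e => ⟦l e⟧) x e =
          ∑ y, if (⟦y⟧ : Quotient S) = x then inc s t v e * inc r l y e else 0 := by
        intro e
        have h4 := inc_comp r l (fun y => (⟦y⟧ : Quotient S)) x e
        rw [h4, mul_sum]
        refine sum_congr rfl fun y _ => ?_
        split_ifs
        · rfl
        · rw [mul_zero]
      simp only [h3]
      rw [sum_comm]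
      refine sum_eq_zero fun y _ => ?_
      split_ifs
      · exact ho v y
      · exact sum_const_zero
  · intro g hg
    have h1 : ∀ v, ∑ e, inc s t v e * (if h : p e then g ⟨e, h⟩ else 0) = 0 := by
      intro v
      rw [← sum_sub p (fun e => inc s t v e * (if h : p e then g ⟨e, h⟩ else 0)) ?_]
      · refine Eq.trans (sum_congr rfl fun e _ => ?_) (hg v)
        rw [dif_pos e.2]
        rfl
      · intro e he
        show inc s t v e * (if h : p e then g ⟨e, h⟩ else 0) = 0
        rw [dif_neg he, mul_zero]
    obtain ⟨φ, hφ⟩ := hf _ h1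
    have h2 := hS2 φ fun e he => by
      have := hφ e
      rw [dif_neg he] at this
      linarith
    refine ⟨fun x => Quotient.liftOn x φ h2, fun e => ?_⟩
    have := hφ e.1
    rw [dif_pos e.2] at this
    exact this

/-- Solvability of a flow problem with given demands. -/
theorem exists_flow {s t : E → V} (b : V → ℚ)
    (hb : ∀ φ : V → ℚ, (∀ e, φ (s e) = φ (t e)) → ∑ v, φ v * b v = 0) :
    ∃ h : E → ℚ, ∀ v, ∑ e, inc s t v e * h e = b v := by
  have h1 : b ∈ LinearMap.range (inc s t).mulVecLin := by
    rw [← Subspace.forall_mem_dualAnnihilator_apply_eq_zero_iff]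
    intro ψ hψ
    rw [Submodule.mem_dualAnnihilator] at hψ
    have h2 : ∀ x : V → ℚ, ψ x = ∑ v, ψ (Pi.single v 1) * x v := by
      intro x
      conv_lhs => rw [pi_eq_sum_univ x]
      rw [map_sum]
      refine sum_congr rfl fun v _ => ?_
      rw [map_smul, smul_eq_mul, mul_comm]
      congr 2
      ext w
      simp [Pi.single_apply, eq_comm]
    rw [h2]
    refine hb _ fun e => ?_
    have h3 := hψ _ ⟨Pi.single e 1, rfl⟩
    rw [h2] at h3
    have h4 : ∀ v, ((inc s t).mulVecLin (Pi.single e 1)) v = inc s t v e := by
      intro v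
      rw [Matrix.mulVecLin_apply, Matrix.mulVec_single_one]
      rfl
    simp only [h4] at h3
    unfold inc at h3
    simp only [mul_sub, mul_ite, mul_one, mul_zero, sum_sub_distrib, sum_ite_eq, mem_univ,
      if_true] at h3
    linarith
  obtain ⟨h, rfl⟩ := h1
  exact ⟨h, fun v => rfl⟩

/-- Contraction of the fibres of a map with connected fibres. -/
theorem dual_contract {W : Type*} [Fintype W] [DecidableEq W] {s t : E → V} {l r : E → F}
    (ho : Orth s t l r) (hf : Full s t l r) (π : V → W)
    (hπ : ∀ φ : V → ℚ, (∀ e, π (s e) = π (t e) → φ (s e) = φ (t e)) →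
      ∀ u v, π u = π v → φ u = φ v) :
    Orth (fun e : {e // π (s e) ≠ π (t e)} => π (s e.1)) (fun e => π (t e.1))
        (fun e => l e.1) (fun e => r e.1) ∧
      Full (fun e : {e // π (s e) ≠ π (t e)} => π (s e.1)) (fun e => π (t e.1))
        (fun e => l e.1) (fun e => r e.1) := by
  constructor
  · intro w x
    have h1 : ∑ e : {e // π (s e) ≠ π (t e)},
        inc (fun e => π (s e)) (fun e => π (t e)) w e.1 * inc r l x e.1 =
        ∑ e, inc (fun e => π (s e)) (fun e => π (t e)) w e * inc r l x e := by
      refine sum_sub (fun e => π (s e) ≠ π (t e)) (fun e =>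
        inc (fun e => π (s e)) (fun e => π (t e)) w e * inc r l x e) fun e he => ?_
      rw [not_not] at he
      show inc (fun e => π (s e)) (fun e => π (t e)) w e * inc r l x e = 0
      have h2 : inc (fun e => π (s e)) (fun e => π (t e)) w e = 0 := by
        unfold inc
        simp only [he]
        rw [sub_self]
      rw [h2, zero_mul]
    refine Eq.trans ?_ (h1.trans ?_)
    · exact sum_congr rfl fun e _ => rfl
    · have h3 : ∀ e, inc (fun e => π (s e)) (fun e => π (t e)) w e * inc r l x e =
          ∑ v, if π v = w then inc s t v e * inc r l x e else 0 := by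
        intro e
        rw [inc_comp, sum_mul]
        refine sum_congr rfl fun v _ => ?_
        split_ifs
        · rfl
        · rw [zero_mul]
      simp only [h3]
      rw [sum_comm]
      refine sum_eq_zero fun v _ => ?_
      split_ifs
      · exact ho v x
      · exact sum_const_zero
  · intro g hg
    set g0 : E → ℚ := fun e => if h : π (s e) ≠ π (t e) then g ⟨e, h⟩ else 0 with hg0
    have hg1 : ∀ w, ∑ e, inc (fun e => π (s e)) (fun e => π (t e)) w e * g0 e = 0 := by
      intro w
      rw [← sum_sub (fun e => π (s e) ≠ π (t e)) (fun e =>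
        inc (fun e => π (s e)) (fun e => π (t e)) w e * g0 e) ?_]
      · refine Eq.trans (sum_congr rfl fun e _ => ?_) (hg w)
        have h5 : g0 e.1 = g e := dif_pos e.2
        rw [h5]
        rfl
      · intro e he
        have h5 : g0 e = 0 := dif_neg he
        show inc (fun e => π (s e)) (fun e => π (t e)) w e * g0 e = 0
        rw [h5, mul_zero]
    obtain ⟨h, hh⟩ := exists_flow
      (s := fun e : {e // π (s e) = π (t e)} => s e.1) (t := fun e => t e.1)
      (fun v => - ∑ e, inc s t v e * g0 e) (by
        intro φ hφ
        have h6 := hπ φ fun e he => hφ ⟨e, he⟩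
        obtain ⟨ψ, hψ⟩ : ∃ ψ : W → ℚ, ∀ v, φ v = ψ (π v) := by
          classical
          refine ⟨fun w => if h : ∃ v, π v = w then φ h.choose else 0, fun v => ?_⟩
          have h7 : ∃ v', π v' = π v := ⟨v, rfl⟩
          show φ v = if h : ∃ v', π v' = π v then φ h.choose else 0
          rw [dif_pos h7]
          exact h6 _ _ h7.choose_spec.symm
        have h8 : ∀ v, φ v * -(∑ e, inc s t v e * g0 e) =
            - ∑ e, (φ v * inc s t v e) * g0 e := by
          intro v
          rw [mul_neg, mul_sum]
          congr 1
          exact sum_congr rfl fun e _ => (mul_assoc _ _ _).symm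
        simp only [h8]
        rw [sum_neg_distrib, sum_comm, neg_eq_zero]
        have h9 : ∀ e, ∑ v, φ v * inc s t v e * g0 e =
            ∑ w, ψ w * inc (fun e => π (s e)) (fun e => π (t e)) w e * g0 e := by
          intro e
          rw [← sum_mul, ← sum_mul, sum_inc, sum_inc (fun e => π (s e)) (fun e => π (t e)), hψ, hψ]
        simp only [h9]
        rw [sum_comm]
        refine sum_eq_zero fun w _ => ?_
        have h10 := hg1 w
        have h11 : ∀ e, ψ w * inc (fun e => π (s e)) (fun e => π (t e)) w e * g0 e =
            ψ w * (inc (fun e => π (s e)) (fun e => π (t e)) w e * g0 e) :=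
          fun e => mul_assoc _ _ _
        simp only [h11]
        rw [← mul_sum, h10, mul_zero])
    set h0 : E → ℚ := fun e => if he : π (s e) = π (t e) then h ⟨e, he⟩ else 0 with hh0
    have h12 : ∀ v, ∑ e, inc s t v e * (g0 e + h0 e) = 0 := by
      intro v
      simp only [mul_add]
      rw [sum_add_distrib]
      have h13 : ∑ e, inc s t v e * h0 e = - ∑ e, inc s t v e * g0 e := by
        rw [← hh v, ← sum_sub (fun e => π (s e) = π (t e)) (fun e => inc s t v e * h0 e) ?_]
        · refine sum_congr rfl fun e _ => ?_
          have h5 : h0 e.1 = h e := dif_pos e.2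
          rw [h5]
          rfl
        · intro e he
          have h5 : h0 e = 0 := dif_neg he
          show inc s t v e * h0 e = 0
          rw [h5, mul_zero]
      rw [h13, add_neg_cancel]
    obtain ⟨φ, hφ⟩ := hf _ h12
    refine ⟨φ, fun e => ?_⟩
    rw [← hφ e.1]
    have h5 : g0 e.1 = g e := dif_pos e.2
    have h6 : h0 e.1 = 0 := dif_neg e.2
    rw [h5, h6, add_zero]

/-- Subdivision of an edge by an isolated vertex. -/
theorem dual_subdiv {s t : E → V} {l r : E → F} (ho : Orth s t l r) (hf : Full s t l r)
    (e0 : E) (u : V) (hu : ∀ e, s e ≠ u ∧ t e ≠ u) :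
    Orth (fun e : Option E => e.elim u s) (fun e => e.elim (t e0) fun e => if e = e0 then u else t e)
        (fun e => e.elim (l e0) l) (fun e => e.elim (r e0) r) ∧
      Full (fun e : Option E => e.elim u s)
        (fun e => e.elim (t e0) fun e => if e = e0 then u else t e)
        (fun e => e.elim (l e0) l) (fun e => e.elim (r e0) r) := by
  have key : ∀ (v : V) (g : Option E → ℚ),
      ∑ e : Option E, inc (fun e : Option E => e.elim u s)
        (fun e => e.elim (t e0) fun e => if e = e0 then u else t e) v e * g e =
      ∑ e, inc s t v e * g (some e) + (ind (t e0) v - ind u v) * (g none - g (some e0)) := by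
    intro v g
    rw [Fintype.sum_option]
    have h1 : ∀ e, inc (fun e : Option E => e.elim u s)
        (fun e => e.elim (t e0) fun e => if e = e0 then u else t e) v (some e) * g (some e) =
        inc s t v e * g (some e) + if e0 = e then (ind u v - ind (t e0) v) * g (some e) else 0 := by
      intro e
      show (ind (if e = e0 then u else t e) v - ind (s e) v) * g (some e) =
        (ind (t e) v - ind (s e) v) * g (some e) +
          if e0 = e then (ind u v - ind (t e0) v) * g (some e) else 0
      by_cases h2 : e = e0
      · subst h2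
        rw [if_pos rfl, if_pos rfl]
        ring
      · rw [if_neg h2, if_neg (fun h3 => h2 h3.symm), add_zero]
    simp only [h1]
    rw [sum_add_distrib, sum_ite_eq, if_pos (mem_univ _)]
    show (ind (t e0) v - ind u v) * g none + _ = _
    ring
  constructor
  · intro v x
    rw [key v]
    have h1 : ∀ e, inc (fun e : Option E => e.elim (r e0) r) (fun e => e.elim (l e0) l) x (some e) =
        inc r l x e := fun e => rfl
    have h2 : inc (fun e : Option E => e.elim (r e0) r) (fun e => e.elim (l e0) l) x none =
        inc r l x e0 := rfl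
    simp only [h1, h2]
    rw [ho v x, sub_self, mul_zero, add_zero]
  · intro g hg
    have h1 := hg u
    rw [key u g] at h1
    have h2 : ∀ e, inc s t u e = 0 := by
      intro e
      unfold inc
      rw [if_neg (hu e).1, if_neg (hu e).2, sub_self]
    simp only [h2, zero_mul, sum_const_zero, zero_add] at h1
    have h4 : ind (t e0) u = 0 := if_neg (hu e0).2
    have h5 : ind u u = 1 := if_pos rfl
    rw [h4, h5] at h1
    have h3 : g none = g (some e0) := by linarith
    obtain ⟨φ, hφ⟩ := hf (fun e => g (some e)) fun v => by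
      have := hg v
      rw [key v g, h3, sub_self, mul_zero, add_zero] at this
      exact this
    refine ⟨φ, fun e => ?_⟩
    cases e with
    | none => rw [h3]; exact hφ e0
    | some e => exact hφ e

end

end Pool.Agent.Red
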