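import Mathlib
import Pool.Agent.Work.MP_392c8e_co_red.Pl
import Pool.Agent.Work.MP_392c8e_co.Exact
import Pool.Agent.Work.MP_392c8e_co.Facts

/-!
# Simple graphs with an algebraic dual
-/

namespace Pool.Agent.Red

open Finset Pool.Agent.Sub392

set_option linter.unusedSectionVars false

section

variable {V : Type} [Fintype V] [DecidableEq V] {G H : SimpleGraph V}

/-- Subgraphs. -/
theorem Pl.del (h : Pl G) (hle : H ≤ G) : Pl H := by
  classical
  obtain ⟨E, F, _, _, _, _, s, t, l, r, ⟨h1, h2, h3⟩, ho, hf⟩ := h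
  set p : E → Prop := fun e => H.Adj (s e) (t e) with hp
  set S : Setoid F := Relation.EqvGen.setoid (fun x y => ∃ e, ¬ p e ∧ l e = x ∧ r e = y) with hS
  obtain ⟨ho', hf'⟩ := dual_del ho hf p S
    (fun e he => Relation.EqvGen.rel _ _ ⟨e, he, rfl, rfl⟩) (by
      intro φ hφ x y hxy
      induction hxy with
      | rel x y h =>
        obtain ⟨e, he, rfl, rfl⟩ := h
        exact hφ e he
      | refl x => rfl
      | symm x y _ ih => exact ih.symm
      | trans x y z _ _ ih1 ih2 => exact ih1.trans ih2)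
  refine ⟨{e // p e}, Quotient S, inferInstance, inferInstance, inferInstance, inferInstance,
    _, _, _, _, ⟨fun e => e.2, ?_, ?_⟩, ho', hf'⟩
  · intro u v huv
    obtain ⟨e, he⟩ := h2 u v (hle huv)
    refine ⟨⟨e, ?_⟩, he⟩
    show H.Adj (s e) (t e)
    rw [← SimpleGraph.mem_edgeSet, he]
    exact huv
  · intro e e' hee
    exact Subtype.ext (h3 hee)

/-- Contraction of the fibres of a map. -/
theorem Pl.contract {W : Type} [Fintype W] [DecidableEq W] {H : SimpleGraph W} (h : Pl G)
    (π : V → W) (h1 : ∀ u v, G.Adj u v → π u ≠ π v → H.Adj (π u) (π v))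
    (h2 : ∀ x y, H.Adj x y → ∃ u v, G.Adj u v ∧ π u = x ∧ π v = y)
    (h3 : ∀ u v u' v', G.Adj u v → G.Adj u' v' → π u = π u' → π v = π v' → π u ≠ π v →
      u = u' ∧ v = v')
    (h4 : ∀ φ : V → ℚ, (∀ u v, G.Adj u v → π u = π v → φ u = φ v) →
      ∀ u v, π u = π v → φ u = φ v) : Pl H := by
  classical
  obtain ⟨E, F, _, _, _, _, s, t, l, r, ⟨g1, g2, g3⟩, ho, hf⟩ := h
  obtain ⟨ho', hf'⟩ := dual_contract ho hf π (by
    intro φ hφ
    refine h4 φ fun u v huv hπ => ?_
    obtain ⟨e, he⟩ := g2 u v huv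
    rcases Sym2.eq_iff.1 he with ⟨rfl, rfl⟩ | ⟨rfl, rfl⟩
    · exact hφ e hπ
    · exact (hφ e hπ.symm).symm)
  refine ⟨{e // π (s e) ≠ π (t e)}, F, inferInstance, inferInstance, inferInstance, inferInstance,
    _, _, _, _, ⟨fun e => h1 _ _ (g1 e.1) e.2, ?_, ?_⟩, ho', hf'⟩
  · intro x y hxy
    obtain ⟨u, v, huv, rfl, rfl⟩ := h2 x y hxy
    obtain ⟨e, he⟩ := g2 u v huv
    have hne := hxy.ne
    rcases Sym2.eq_iff.1 he with ⟨h5, h6⟩ | ⟨h5, h6⟩
    · refine ⟨⟨e, by rw [h5, h6]; exact hne⟩, ?_⟩
      show s(π (s e), π (t e)) = _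
      rw [h5, h6]
    · refine ⟨⟨e, by rw [h5, h6]; exact hne.symm⟩, ?_⟩
      show s(π (s e), π (t e)) = _
      rw [h5, h6]
      exact Sym2.eq_swap
  · rintro ⟨e, he⟩ ⟨e', he'⟩ hee
    refine Subtype.ext ?_
    show e = e'
    have hee' : s(π (s e), π (t e)) = s(π (s e'), π (t e')) := hee
    refine g3 ?_
    show s(s e, t e) = s(s e', t e')
    rcases Sym2.eq_iff.1 hee' with ⟨h5, h6⟩ | ⟨h5, h6⟩
    · obtain ⟨h7, h8⟩ := h3 _ _ _ _ (g1 e) (g1 e') h5 h6 he
      rw [h7, h8]
    · obtain ⟨h7, h8⟩ := h3 _ _ _ _ (g1 e) (g1 e').symm h5 h6 he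
      rw [h7, h8]
      exact Sym2.eq_swap

/-- Subdivision of the edge `a b` by an isolated vertex `u`. -/
theorem Pl.subdiv (h : Pl G) {a b u : V} (hab : G.Adj a b) (hu : ∀ v, ¬ G.Adj u v)
    (hH : ∀ x y, H.Adj x y ↔ (G.Adj x y ∧ s(x, y) ≠ s(a, b)) ∨ s(x, y) = s(a, u) ∨
      s(x, y) = s(u, b)) : Pl H := by
  classical
  obtain ⟨E, F, _, _, _, _, s, t, l, r, ⟨g1, g2, g3⟩, ho, hf⟩ := h
  obtain ⟨e0, he0⟩ := g2 a b hab
  have hu' : ∀ e, s e ≠ u ∧ t e ≠ u := fun e =>
    ⟨fun h5 => hu (t e) (by rw [← h5]; exact g1 e), fun h5 => hu (s e) (by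
      rw [← h5]; exact (g1 e).symm)⟩
  obtain ⟨ho', hf'⟩ := dual_subdiv ho hf e0 u hu'
  have hH' : ∀ x y, H.Adj x y ↔ (G.Adj x y ∧ s(x, y) ≠ s(s e0, t e0)) ∨
      s(x, y) = s(s e0, u) ∨ s(x, y) = s(u, t e0) := by
    intro x y
    rw [hH]
    rcases Sym2.eq_iff.1 he0 with ⟨rfl, rfl⟩ | ⟨rfl, rfl⟩
    · rfl
    · rw [Sym2.eq_swap (a := t e0) (b := s e0), Sym2.eq_swap (a := t e0) (b := u),
        Sym2.eq_swap (a := u) (b := s e0), or_comm (a := s(x, y) = s(u, t e0))]
  refine ⟨Option E, F, inferInstance, inferInstance, inferInstance, inferInstance,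
    _, _, _, _, ⟨?_, ?_, ?_⟩, ho', hf'⟩
  · intro e
    rw [hH']
    cases e with
    | none => exact Or.inr (Or.inr rfl)
    | some e =>
      show (G.Adj (s e) (if e = e0 then u else t e) ∧
        s(s e, if e = e0 then u else t e) ≠ s(s e0, t e0)) ∨ _
      by_cases h5 : e = e0
      · subst h5
        exact Or.inr (Or.inl (by
          show s(s e, if e = e then u else t e) = _
          rw [if_pos rfl]))
      · rw [if_neg h5]
        exact Or.inl ⟨g1 e, fun h6 => h5 (g3 h6)⟩
  · intro x y hxy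
    rw [hH'] at hxy
    rcases hxy with ⟨h5, h6⟩ | h5 | h5
    · obtain ⟨e, he⟩ := g2 x y h5
      refine ⟨some e, ?_⟩
      show s(s e, if e = e0 then u else t e) = _
      rw [if_neg, he]
      rintro rfl
      exact h6 he.symm
    · refine ⟨some e0, ?_⟩
      show s(s e0, if e0 = e0 then u else t e0) = _
      rw [if_pos rfl, h5]
    · exact ⟨none, h5.symm⟩
  · have h5 : ∀ e : E, s(s e, if e = e0 then u else t e) ≠ s(u, t e0) := by
      intro e h6
      rcases Sym2.eq_iff.1 h6 with ⟨h7, -⟩ | ⟨h7, h8⟩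
      · exact (hu' e).1 h7
      · by_cases h9 : e = e0
        · subst h9
          exact (g1 e).ne h7
        · rw [if_neg h9] at h8
          exact (hu' e).2 h8
    intro e e' hee
    cases e with
    | none =>
      cases e' with
      | none => rfl
      | some e' => exact absurd hee.symm (h5 e')
    | some e =>
      cases e' with
      | none => exact absurd hee (h5 e)
      | some e' =>
        have hee' : s(s e, if e = e0 then u else t e) = s(s e', if e' = e0 then u else t e') := hee
        congr 1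
        by_cases h9 : e = e0
        · by_cases h10 : e' = e0
          · rw [h9, h10]
          · exfalso
            rw [if_pos h9, if_neg h10] at hee'
            rcases Sym2.eq_iff.1 hee' with ⟨-, h7⟩ | ⟨-, h7⟩
            · exact (hu' e').2 h7.symm
            · exact (hu' e').1 h7.symm
        · by_cases h10 : e' = e0
          · exfalso
            rw [if_neg h9, if_pos h10] at hee'
            rcases Sym2.eq_iff.1 hee' with ⟨-, h7⟩ | ⟨h7, -⟩
            · exact (hu' e).2 h7
            · exact (hu' e).1 h7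
          · rw [if_neg h9, if_neg h10] at hee'
            exact g3 hee'

/-- The dual may be taken connected. -/
theorem Pl.conn (h : Pl G) : ∃ (E F : Type) (_ : Fintype E) (_ : DecidableEq E) (_ : Fintype F)
    (_ : DecidableEq F) (s t : E → V) (l r : E → F),
    IsOf G s t ∧ Orth s t l r ∧ Full s t l r ∧ Conn r l ∧ Nonempty F := by
  classical
  obtain ⟨E, F, _, _, _, _, s, t, l, r, hof, ho, hf⟩ := h
  set S : Setoid F := Relation.EqvGen.setoid (fun x y => ∃ e : E, l e = x ∧ r e = y) with hS
  set rep : F → F := fun x => (Quotient.mk S x).out with hrep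
  have hlr : ∀ e, rep (l e) = rep (r e) := fun e => by
    have h1 : Quotient.mk S (l e) = Quotient.mk S (r e) :=
      Quotient.sound (Relation.EqvGen.rel _ _ ⟨e, rfl, rfl⟩)
    show (Quotient.mk S (l e)).out = (Quotient.mk S (r e)).out
    rw [h1]
  have hrr : ∀ x, rep (rep x) = rep x := fun x => by
    show (Quotient.mk S (Quotient.mk S x).out).out = (Quotient.mk S x).out
    rw [Quotient.out_eq]
  have hconst : ∀ φ : F → ℚ, (∀ e, φ (l e) = φ (r e)) → ∀ x, φ (rep x) = φ x := by
    intro φ hφ x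
    have h1 : ∀ y z, S y z → φ y = φ z := by
      intro y z hyz
      induction hyz with
      | rel x y h =>
        obtain ⟨e, rfl, rfl⟩ := h
        exact hφ e
      | refl x => rfl
      | symm x y _ ih => exact ih.symm
      | trans x y z _ _ ih1 ih2 => exact ih1.trans ih2
    exact h1 _ _ (Quotient.mk_out x)
  set ρ : F → Option {x : F // rep x ≠ x} := fun x =>
    if h : rep x = x then none else some ⟨x, h⟩ with hρ
  refine ⟨E, Option {x : F // rep x ≠ x}, inferInstance, inferInstance, inferInstance,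
    inferInstance, s, t, fun e => ρ (l e), fun e => ρ (r e), hof, ?_, ?_, ?_, inferInstance⟩
  · intro v x
    have h3 : ∀ e, inc s t v e * inc (fun e => ρ (r e)) (fun e => ρ (l e)) x e =
        ∑ y, if ρ y = x then inc s t v e * inc r l y e else 0 := by
      intro e
      rw [inc_comp, mul_sum]
      refine sum_congr rfl fun y _ => ?_
      split_ifs
      · rfl
      · rw [mul_zero]
    simp only [h3]
    rw [sum_comm]
    refine sum_eq_zero fun y _ => ?_
    split_ifs
    · exact ho v y
    · exact sum_const_zero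
  · intro g hg
    obtain ⟨φ, hφ⟩ := hf g hg
    refine ⟨fun y => y.elim 0 fun x => φ x.1 - φ (rep x.1), fun e => ?_⟩
    have h1 : ∀ x, (ρ x).elim 0 (fun x => φ x.1 - φ (rep x.1)) = φ x - φ (rep x) := by
      intro x
      by_cases h2 : rep x = x
      · have h3 : ρ x = none := dif_pos h2
        rw [h3, h2]
        simp
      · have h3 : ρ x = some ⟨x, h2⟩ := dif_neg h2
        rw [h3]
        rfl
    show g e = (ρ (l e)).elim 0 (fun x => φ x.1 - φ (rep x.1)) -
      (ρ (r e)).elim 0 (fun x => φ x.1 - φ (rep x.1))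
    rw [h1, h1, hφ, hlr]
    ring
  · intro φ hφ
    have h1 := hconst (fun x => φ (ρ x)) fun e => (hφ e).symm
    have h2 : ∀ y, φ y = φ none := by
      intro y
      cases y with
      | none => rfl
      | some x =>
        have h3 : ρ x.1 = some x := dif_neg x.2
        have h4 : ρ (rep x.1) = none := dif_pos (hrr x.1)
        have h5 := h1 x.1
        simp only [h3, h4] at h5
        exact h5.symm
    intro u v
    rw [h2 u, h2 v]

end

section

variable {V : Type} [Fintype V] [DecidableEq V] {G : SimpleGraph V} [DecidableRel G.Adj]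

/-- Plane graphs have an algebraic dual. -/
theorem pl_of_rot (R : Rot G) (hP : R.Plane) : Pl G := by
  classical
  obtain ⟨hc, he⟩ := hP
  have : Nonempty V := hc.nonempty
  have horth : Orth (fun e : Up G => e.1.fst) (fun e => e.1.snd) (fun e => R.face e.1)
      (fun e => R.face e.1.symm) := by
    intro v x
    have h1 : ∑ d : G.Dart, ind d.fst v * (ind (R.face d) x - ind (R.face d.symm) x) = 0 := by
      simp only [mul_sub]
      rw [sum_sub_distrib, sub_eq_zero]
      refine (Equiv.sum_comp R.rot (fun d => ind d.fst v * ind (R.face d) x)).symm.trans ?_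
      refine sum_congr rfl fun d _ => ?_
      rw [R.fst_rot, R.face_rot]
    rw [sum_dart] at h1
    rw [← neg_eq_zero, ← sum_neg_distrib, ← h1]
    refine sum_congr rfl fun e _ => ?_
    show -((ind e.1.snd v - ind e.1.fst v) * (ind (R.face e.1) x - ind (R.face e.1.symm) x)) =
      ind e.1.fst v * (ind (R.face e.1) x - ind (R.face e.1.symm) x) +
        ind e.1.snd v * (ind (R.face e.1.symm) x - ind (R.face e.1.symm.symm) x)
    rw [SimpleGraph.Dart.symm_symm]
    ring
  have hconn : Conn (fun e : Up G => e.1.fst) (fun e => e.1.snd) := by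
    intro φ hφ u v
    have h1 : ∀ x y, G.Adj x y → φ x = φ y := by
      intro x y hxy
      rcases up_or (⟨(x, y), hxy⟩ : G.Dart) with h3 | h3
      · exact hφ ⟨⟨(x, y), hxy⟩, h3⟩
      · exact (hφ ⟨_, h3⟩).symm
    obtain ⟨w⟩ := hc.preconnected u v
    induction w with
    | nil => rfl
    | cons h _ ih => exact (h1 _ _ h).trans ih
  have hface : ∀ φ : R.Face → ℚ, (∀ e : Up G, φ (R.face e.1) = φ (R.face e.1.symm)) →
      ∀ x y, φ x = φ y := by
    intro φ hφ x y
    have h2 : ∀ d : G.Dart, φ (R.face d.symm) = φ (R.face d) := by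
      intro d
      rcases up_or d with h3 | h3
      · exact (hφ ⟨d, h3⟩).symm
      · have := hφ ⟨_, h3⟩
        simp only [SimpleGraph.Dart.symm_symm] at this
        exact this
    have h3 := R.const hc (fun d => φ (R.face d)) (fun d => by rw [R.face_next]) h2
    obtain ⟨d, rfl⟩ := R.face_surj x
    obtain ⟨d', rfl⟩ := R.face_surj y
    exact h3 d d'
  have : Nonempty R.Face := by
    by_contra h5
    rw [not_nonempty_iff] at h5
    have h6 : Fintype.card R.Face = 0 := Fintype.card_eq_zero
    have h7 : IsEmpty (Up G) := ⟨fun e => h5.elim (R.face e.1)⟩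
    have h8 := euler_le (V := V) (F := Unit) (E := Up G) (s := fun e => e.1.fst)
      (t := fun e => e.1.snd) (l := fun _ => ()) (r := fun _ => ())
      (fun v x => by
        rw [univ_eq_empty, sum_empty]) hconn (fun φ _ u v => rfl)
    rw [card_up] at h8
    simp only [Fintype.card_unit] at h8
    omega
  refine ⟨Up G, R.Face, inferInstance, inferInstance, inferInstance, inferInstance, _, _, _, _,
    ⟨fun e => e.1.adj, ?_, ?_⟩, horth, full_of_euler horth hconn
      (fun φ hφ => hface φ fun e => (hφ e).symm) ?_⟩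
  · intro u v huv
    rcases up_or (⟨(u, v), huv⟩ : G.Dart) with h3 | h3
    · exact ⟨⟨_, h3⟩, rfl⟩
    · exact ⟨⟨_, h3⟩, Sym2.eq_swap⟩
  · intro e e' hee
    rcases (SimpleGraph.dart_edge_eq_iff e.1 e'.1).1 hee with h1 | h1
    · exact Subtype.ext h1
    · exfalso
      have h2 := e.2
      have h3 := e'.2
      have h4 : e.1.fst = e'.1.snd := by rw [h1]; rfl
      have h5 : e.1.snd = e'.1.fst := by rw [h1]; rfl
      rw [h4, h5] at h2
      omega
  · rw [card_up]
    exact he

end

end Pool.Agent.Red
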