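import Mathlib
import Pool.Agent.Work.MP_392c8e_co_red.PlG

/-!
# Strict colourings and minimal graphs without them
-/

namespace Pool.Agent.Red

open Finset

set_option linter.unusedSectionVars false

/-- A strict colouring: colours in `ℤ / 3` and heights; every edge goes from a colour `i` up to
the colour `i + 1`. -/
def Strict {V : Type*} (G : SimpleGraph V) (c : V → ZMod 3) (τ : V → ℝ) : Prop :=
  ∀ u v, G.Adj u v → (c v = c u + 1 ∧ τ u < τ v) ∨ (c u = c v + 1 ∧ τ v < τ u)

/-- The graph has a strict colouring. -/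
def StrictCol {V : Type*} (G : SimpleGraph V) : Prop := ∃ c τ, Strict G c τ

theorem StrictCol.mono {V : Type*} {G H : SimpleGraph V} (h : StrictCol G) (hle : H ≤ G) :
    StrictCol H := by
  obtain ⟨c, τ, h⟩ := h
  exact ⟨c, τ, fun u v huv => h u v (hle huv)⟩

/-- A graph with the smallest number of edges among the graphs with an algebraic dual, without
triangles, with all degrees at most `3` and without strict colourings; no vertex is isolated. -/
structure MinCex {V : Type} [Fintype V] [DecidableEq V] (G : SimpleGraph V) : Prop where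
  pl : Pl G
  tri : G.CliqueFree 3
  deg : ∀ v, (G.neighborSet v).ncard ≤ 3
  bad : ¬ StrictCol G
  min : ∀ (W : Type) [Fintype W] [DecidableEq W] (H : SimpleGraph W), Pl H → H.CliqueFree 3 →
    (∀ v, (H.neighborSet v).ncard ≤ 3) → H.edgeSet.ncard < G.edgeSet.ncard → StrictCol H
  noiso : ∀ v, ∃ w, G.Adj v w

variable {V : Type} [Fintype V] [DecidableEq V] {G : SimpleGraph V}

/-- Isolated vertices may be removed. -/
theorem Pl.restrict (h : Pl G) (p : V → Prop) [DecidablePred p]
    (hp : ∀ u v, G.Adj u v → p u) : Pl (G.comap (Subtype.val : {v // p v} → V)) := by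
  classical
  obtain ⟨E, F, _, _, _, _, s, t, l, r, ⟨g1, g2, g3⟩, ho, hf⟩ := h
  have hs : ∀ e, p (s e) := fun e => hp _ _ (g1 e)
  have ht : ∀ e, p (t e) := fun e => hp _ _ (g1 e).symm
  have hinc : ∀ (v : {v // p v}) (e : E),
      inc (fun e => (⟨s e, hs e⟩ : {v // p v})) (fun e => ⟨t e, ht e⟩) v e = inc s t v.1 e := by
    intro v e
    unfold inc
    simp only [Subtype.ext_iff]
  refine ⟨E, F, inferInstance, inferInstance, inferInstance, inferInstance,
    fun e => ⟨s e, hs e⟩, fun e => ⟨t e, ht e⟩, l, r, ⟨fun e => g1 e, ?_, ?_⟩, ?_, ?_⟩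
  · rintro ⟨u, hu⟩ ⟨v, hv⟩ huv
    obtain ⟨e, he⟩ := g2 u v huv
    refine ⟨e, ?_⟩
    rcases Sym2.eq_iff.1 he with ⟨h5, h6⟩ | ⟨h5, h6⟩
    · exact Sym2.eq_iff.2 (Or.inl ⟨Subtype.ext h5, Subtype.ext h6⟩)
    · exact Sym2.eq_iff.2 (Or.inr ⟨Subtype.ext h5, Subtype.ext h6⟩)
  · intro e e' hee
    refine g3 ?_
    rcases Sym2.eq_iff.1 hee with ⟨h5, h6⟩ | ⟨h5, h6⟩
    · exact Sym2.eq_iff.2 (Or.inl ⟨congrArg Subtype.val h5, congrArg Subtype.val h6⟩)
    · exact Sym2.eq_iff.2 (Or.inr ⟨congrArg Subtype.val h5, congrArg Subtype.val h6⟩)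
  · intro v x
    simp only [hinc]
    exact ho v.1 x
  · intro g hg
    refine hf g fun v => ?_
    by_cases hv : p v
    · have := hg ⟨v, hv⟩
      simp only [hinc] at this
      exact this
    · refine sum_eq_zero fun e _ => ?_
      have h1 : s e ≠ v := fun h => hv (h ▸ hs e)
      have h2 : t e ≠ v := fun h => hv (h ▸ ht e)
      unfold inc
      rw [if_neg h1, if_neg h2, sub_self, zero_mul]

/-- If there is a counterexample, there is a smallest one. -/
theorem exists_minCex (h1 : Pl G) (h2 : G.CliqueFree 3) (h3 : ∀ v, (G.neighborSet v).ncard ≤ 3)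
    (h4 : ¬ StrictCol G) : ∃ (W : Type) (_ : Fintype W) (_ : DecidableEq W) (H : SimpleGraph W),
      MinCex H := by
  classical
  -- smallest number of edges
  have key : ∃ n : ℕ, ∃ (W : Type) (_ : Fintype W) (_ : DecidableEq W) (H : SimpleGraph W),
      Pl H ∧ H.CliqueFree 3 ∧ (∀ v, (H.neighborSet v).ncard ≤ 3) ∧ ¬ StrictCol H ∧
        H.edgeSet.ncard = n := ⟨_, V, inferInstance, inferInstance, G, h1, h2, h3, h4, rfl⟩
  obtain ⟨W, _, _, H, g1, g2, g3, g4, g5⟩ := Nat.find_spec key
  have gmin : ∀ (W' : Type) [Fintype W'] [DecidableEq W'] (H' : SimpleGraph W'), Pl H' →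
      H'.CliqueFree 3 → (∀ v, (H'.neighborSet v).ncard ≤ 3) →
      H'.edgeSet.ncard < H.edgeSet.ncard → StrictCol H' := by
    intro W' _ _ H' a1 a2 a3 a4
    by_contra a5
    have := Nat.find_min' key ⟨W', inferInstance, inferInstance, H', a1, a2, a3, a5, rfl⟩
    omega
  set p : W → Prop := fun v => ∃ w, H.Adj v w with hp
  set H' : SimpleGraph {v // p v} := H.comap Subtype.val with hH'
  have e1 : H'.edgeSet.ncard ≤ H.edgeSet.ncard := by
    refine Set.ncard_le_ncard_of_injOn (Sym2.map Subtype.val) ?_ ?_ (Set.toFinite _)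
    · intro e he
      induction e using Sym2.ind with
      | _ a b => exact he
    · exact (Sym2.map.injective Subtype.val_injective).injOn
  refine ⟨{v // p v}, inferInstance, inferInstance, H', g1.restrict p fun u v huv => ⟨v, huv⟩,
    ?_, ?_, ?_, ?_, ?_⟩
  · exact SimpleGraph.CliqueFree.comap ⟨(SimpleGraph.Embedding.comap
      (Function.Embedding.subtype p) H).toCopy⟩ g2
  · intro v
    refine le_trans (Set.ncard_le_ncard_of_injOn Subtype.val ?_
      Subtype.val_injective.injOn (Set.toFinite _)) (g3 v.1)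
    intro w hw
    exact hw
  · rintro ⟨c, τ, hc⟩
    refine g4 ⟨fun v => if h : p v then c ⟨v, h⟩ else 0, fun v => if h : p v then τ ⟨v, h⟩ else 0,
      fun u v huv => ?_⟩
    have hu : p u := ⟨v, huv⟩
    have hv : p v := ⟨u, huv.symm⟩
    simp only [dif_pos hu, dif_pos hv]
    exact hc ⟨u, hu⟩ ⟨v, hv⟩ huv
  · intro W' _ _ H'' a1 a2 a3 a4
    exact gmin W' H'' a1 a2 a3 (lt_of_lt_of_le a4 e1)
  · rintro ⟨v, w, hw⟩
    exact ⟨⟨w, v, hw.symm⟩, hw⟩

end Pool.Agent.Red
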