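import Mathlib
import Pool.Agent.Work.MP_392c8e_co_red.MinDef

/-!
# Gluing strict colourings over an edge cut
-/

namespace Pool.Agent.Red

open Finset

set_option linter.unusedSectionVars false

/-- The condition on one edge. -/
def Up1 {V : Type*} (c : V → ZMod 3) (τ : V → ℝ) (u v : V) : Prop :=
  (c v = c u + 1 ∧ τ u < τ v) ∨ (c u = c v + 1 ∧ τ v < τ u)

theorem Up1.symm {V : Type*} {c : V → ZMod 3} {τ : V → ℝ} {u v : V} (h : Up1 c τ u v) :
    Up1 c τ v u := Or.symm h

variable {V : Type*} [Fintype V]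

/-- Heights from keys in a linear order. -/
theorem exists_height {α : Type*} [LinearOrder α] (key : V → α) :
    ∃ τ : V → ℝ, ∀ u v, key u < key v ↔ τ u < τ v := by
  classical
  refine ⟨fun v => ((univ.filter fun w => key w < key v).card : ℝ), fun u v => ?_⟩
  have h1 : ∀ u v, key u < key v →
      (univ.filter fun w => key w < key u).card < (univ.filter fun w => key w < key v).card := by
    intro u v h
    refine Finset.card_lt_card ?_
    rw [Finset.ssubset_iff_of_subset]
    · refine ⟨u, by simpa using h, by simp⟩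
    · intro w hw
      simp only [mem_filter, mem_univ, true_and] at hw ⊢
      exact hw.trans h
  constructor
  · intro h
    show ((univ.filter fun w => key w < key u).card : ℝ) < (univ.filter fun w => key w < key v).card
    exact_mod_cast h1 u v h
  · intro h
    by_contra h2
    rw [not_lt] at h2
    have h3 : ((univ.filter fun w => key w < key u).card : ℝ) <
      (univ.filter fun w => key w < key v).card := h
    have h4 : (univ.filter fun w => key w < key u).card <
      (univ.filter fun w => key w < key v).card := by exact_mod_cast h3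
    rcases h2.lt_or_eq with h5 | h5
    · have := h1 v u h5
      omega
    · rw [h5] at h4
      exact lt_irrefl _ h4

/-- The heights may be taken distinct. -/
theorem exists_inj (τ : V → ℝ) : ∃ τ' : V → ℝ, Function.Injective τ' ∧
    ∀ u v, τ u < τ v → τ' u < τ' v := by
  classical
  obtain ⟨τ', h⟩ := exists_height (fun v => toLex (τ v, Fintype.equivFin V v))
  refine ⟨τ', ?_, ?_⟩
  · intro u v huv
    have h1 : ¬ toLex (τ u, Fintype.equivFin V u) < toLex (τ v, Fintype.equivFin V v) := by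
      rw [h, huv]
      exact lt_irrefl _
    have h2 : ¬ toLex (τ v, Fintype.equivFin V v) < toLex (τ u, Fintype.equivFin V u) := by
      rw [h, huv]
      exact lt_irrefl _
    have h3 := le_antisymm (not_lt.1 h2) (not_lt.1 h1)
    have h4 := congrArg (fun x => (ofLex x).2) h3
    exact (Fintype.equivFin V).injective h4
  · intro u v huv
    rw [← h]
    exact Prod.Lex.toLex_lt_toLex.2 (Or.inl huv)

/-- **Gluing.**  Strict colourings of the two sides `X` and `not X` whose colours differ at the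
ends of the cut edges `a i`, `b i`, and no directed cycle arises. -/
theorem glue {ι : Type*} [Fintype ι] {G : SimpleGraph V} (X : V → Prop) {c1 c2 : V → ZMod 3}
    {τ1 τ2 : V → ℝ}
    (h1 : ∀ u v, X u → X v → G.Adj u v → Up1 c1 τ1 u v)
    (h2 : ∀ u v, ¬ X u → ¬ X v → G.Adj u v → Up1 c2 τ2 u v) (a b : ι → V)
    (hcut : ∀ u v, X u → ¬ X v → G.Adj u v → ∃ i, u = a i ∧ v = b i)
    (hne : ∀ i, c2 (b i) ≠ c1 (a i))
    (hcyc : ∀ i j, c2 (b i) = c1 (a i) + 1 → c1 (a j) = c2 (b j) + 1 →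
      τ2 (b i) ≤ τ2 (b j) → τ1 (a j) ≤ τ1 (a i) → False) : StrictCol G := by
  classical
  set h : V → WithBot ℝ := fun x =>
    (univ.filter fun i : ι => c1 (a i) = c2 (b i) + 1 ∧ τ1 (a i) ≤ τ1 x).sup
      fun i => ((τ2 (b i) : ℝ) : WithBot ℝ) with hh
  have hmono : ∀ x y, τ1 x ≤ τ1 y → h x ≤ h y := by
    intro x y hxy
    refine Finset.sup_mono ?_
    intro i hi
    simp only [mem_filter, mem_univ, true_and] at hi ⊢
    exact ⟨hi.1, hi.2.trans hxy⟩
  set key : V → WithBot ℝ ×ₗ (ℕ ×ₗ ℝ) := fun v =>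
    if X v then toLex (h v, toLex (1, τ1 v)) else toLex (((τ2 v : ℝ) : WithBot ℝ), toLex (0, 0))
    with hkey
  obtain ⟨τ, hτ⟩ := exists_height key
  set c : V → ZMod 3 := fun v => if X v then c1 v else c2 v with hc
  have k1 : ∀ v, X v → key v = toLex (h v, toLex (1, τ1 v)) := fun v hv => if_pos hv
  have k2 : ∀ v, ¬ X v → key v = toLex (((τ2 v : ℝ) : WithBot ℝ), toLex (0, 0)) :=
    fun v hv => if_neg hv
  have e1 : ∀ v, X v → c v = c1 v := fun v hv => if_pos hv
  have e2 : ∀ v, ¬ X v → c v = c2 v := fun v hv => if_neg hv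
  have m1 : ∀ u v, X u → X v → τ1 u < τ1 v → τ u < τ v := by
    intro u v hu hv huv
    rw [← hτ, k1 u hu, k1 v hv, Prod.Lex.toLex_lt_toLex]
    rcases (hmono u v huv.le).lt_or_eq with h3 | h3
    · exact Or.inl h3
    · refine Or.inr ⟨h3, ?_⟩
      rw [Prod.Lex.toLex_lt_toLex]
      exact Or.inr ⟨rfl, huv⟩
  have m2 : ∀ u v, ¬ X u → ¬ X v → τ2 u < τ2 v → τ u < τ v := by
    intro u v hu hv huv
    rw [← hτ, k2 u hu, k2 v hv, Prod.Lex.toLex_lt_toLex]
    exact Or.inl (WithBot.coe_lt_coe.2 huv)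
  -- a cut edge
  have m3 : ∀ i, X (a i) → ¬ X (b i) → c2 (b i) = c1 (a i) + 1 → τ (a i) < τ (b i) := by
    intro i hu hv hi
    rw [← hτ, k1 _ hu, k2 _ hv, Prod.Lex.toLex_lt_toLex]
    left
    show h (a i) < _
    rw [hh]
    simp only
    rw [Finset.sup_lt_iff (WithBot.bot_lt_coe _)]
    intro j hj
    simp only [mem_filter, mem_univ, true_and] at hj
    rw [WithBot.coe_lt_coe]
    by_contra h3
    rw [not_lt] at h3
    exact hcyc i j hi hj.1 h3 hj.2
  have m4 : ∀ i, X (a i) → ¬ X (b i) → c1 (a i) = c2 (b i) + 1 → τ (b i) < τ (a i) := by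
    intro i hu hv hi
    rw [← hτ, k1 _ hu, k2 _ hv, Prod.Lex.toLex_lt_toLex]
    have h3 : ((τ2 (b i) : ℝ) : WithBot ℝ) ≤ h (a i) := by
      refine Finset.le_sup (f := fun i => ((τ2 (b i) : ℝ) : WithBot ℝ)) ?_
      simp only [mem_filter, mem_univ, true_and]
      exact ⟨hi, le_rfl⟩
    rcases h3.lt_or_eq with h4 | h4
    · exact Or.inl h4
    · refine Or.inr ⟨h4, ?_⟩
      rw [Prod.Lex.toLex_lt_toLex]
      exact Or.inl Nat.zero_lt_one
  have h3cases : ∀ x y : ZMod 3, x ≠ y → x = y + 1 ∨ y = x + 1 := by decide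
  have m5 : ∀ i, X (a i) → ¬ X (b i) → Up1 c τ (a i) (b i) := by
    intro i hu hv
    unfold Up1
    rw [e1 _ hu, e2 _ hv]
    rcases h3cases _ _ (hne i) with h4 | h4
    · exact Or.inl ⟨h4, m3 i hu hv h4⟩
    · exact Or.inr ⟨h4, m4 i hu hv h4⟩
  refine ⟨c, τ, fun u v huv => ?_⟩
  show Up1 c τ u v
  by_cases hu : X u <;> by_cases hv : X v
  · have := h1 u v hu hv huv
    unfold Up1 at this ⊢
    rw [e1 _ hu, e1 _ hv]
    rcases this with ⟨h4, h5⟩ | ⟨h4, h5⟩
    · exact Or.inl ⟨h4, m1 _ _ hu hv h5⟩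
    · exact Or.inr ⟨h4, m1 _ _ hv hu h5⟩
  · obtain ⟨i, rfl, rfl⟩ := hcut u v hu hv huv
    exact m5 i hu hv
  · obtain ⟨i, rfl, rfl⟩ := hcut v u hv hu huv.symm
    exact (m5 i hv hu).symm
  · have := h2 u v hu hv huv
    unfold Up1 at this ⊢
    rw [e2 _ hu, e2 _ hv]
    rcases this with ⟨h4, h5⟩ | ⟨h4, h5⟩
    · exact Or.inl ⟨h4, m2 _ _ hu hv h5⟩
    · exact Or.inr ⟨h4, m2 _ _ hv hu h5⟩

end Pool.Agent.Red
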