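import Mathlib
import Pool.Agent.Work.MP_392c8e_co_red.Glue

/-!
# Normal forms of strict colourings and gluing over two and three edges
-/

namespace Pool.Agent.Red

open Finset

set_option linter.unusedSectionVars false

variable {V : Type*} [Fintype V] {H : SimpleGraph V} {c : V → ZMod 3} {τ : V → ℝ}

theorem Strict.addc (h : Strict H c τ) (k : ZMod 3) : Strict H (fun v => c v + k) τ := by
  intro u v huv
  rcases h u v huv with ⟨h1, h2⟩ | ⟨h1, h2⟩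
  · exact Or.inl ⟨by show c v + k = c u + k + 1; rw [h1]; ring, h2⟩
  · exact Or.inr ⟨by show c u + k = c v + k + 1; rw [h1]; ring, h2⟩

theorem Strict.neg (h : Strict H c τ) : Strict H (fun v => -c v) (fun v => -τ v) := by
  intro u v huv
  rcases h u v huv with ⟨h1, h2⟩ | ⟨h1, h2⟩
  · exact Or.inr ⟨by show -c u = -c v + 1; rw [h1]; ring, by show -τ v < -τ u; linarith⟩
  · exact Or.inl ⟨by show -c v = -c u + 1; rw [h1]; ring, by show -τ u < -τ v; linarith⟩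

theorem Strict.inj (h : Strict H c τ) : ∃ τ', Function.Injective τ' ∧ Strict H c τ' := by
  obtain ⟨τ', h1, h2⟩ := exists_inj τ
  refine ⟨τ', h1, fun u v huv => ?_⟩
  rcases h u v huv with ⟨h3, h4⟩ | ⟨h3, h4⟩
  · exact Or.inl ⟨h3, h2 _ _ h4⟩
  · exact Or.inr ⟨h3, h2 _ _ h4⟩

/-- The vertices above the threshold are moved below all others. -/
theorem Strict.cyc (h : Strict H c τ) (θ : ℝ) :
    ∃ τ', Strict H (fun v => if θ < τ v then c v + 1 else c v) τ' ∧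
      (∀ u v, (θ < τ u ↔ θ < τ v) → τ u < τ v → τ' u < τ' v) ∧
      (∀ u v, θ < τ u → ¬ θ < τ v → τ' u < τ' v) := by
  classical
  obtain ⟨τ', hτ⟩ := exists_height (fun v => toLex ((if θ < τ v then 0 else 1 : ℕ), τ v))
  have k1 : ∀ u v, (θ < τ u ↔ θ < τ v) → τ u < τ v → τ' u < τ' v := by
    intro u v huv hlt
    rw [← hτ, Prod.Lex.toLex_lt_toLex]
    right
    refine ⟨?_, hlt⟩
    by_cases h1 : θ < τ u
    · rw [if_pos h1, if_pos (huv.1 h1)]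
    · rw [if_neg h1, if_neg fun h2 => h1 (huv.2 h2)]
  have k2 : ∀ u v, θ < τ u → ¬ θ < τ v → τ' u < τ' v := by
    intro u v hu hv
    rw [← hτ, Prod.Lex.toLex_lt_toLex]
    left
    rw [if_pos hu, if_neg hv]
    exact Nat.zero_lt_one
  have h3 : ∀ x : ZMod 3, x = x + 1 + 1 + 1 := by decide
  refine ⟨τ', ?_, k1, k2⟩
  have key : ∀ u v, c v = c u + 1 → τ u < τ v →
      ((if θ < τ v then c v + 1 else c v) = (if θ < τ u then c u + 1 else c u) + 1 ∧ τ' u < τ' v) ∨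
      ((if θ < τ u then c u + 1 else c u) = (if θ < τ v then c v + 1 else c v) + 1 ∧
        τ' v < τ' u) := by
    intro u v h1 h2
    by_cases hu : θ < τ u
    · have hv : θ < τ v := hu.trans h2
      rw [if_pos hu, if_pos hv]
      exact Or.inl ⟨by rw [h1], k1 _ _ (iff_of_true hu hv) h2⟩
    · by_cases hv : θ < τ v
      · rw [if_neg hu, if_pos hv]
        exact Or.inr ⟨by rw [h1]; exact h3 _, k2 _ _ hv hu⟩
      · rw [if_neg hu, if_neg hv]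
        exact Or.inl ⟨h1, k1 _ _ (iff_of_false hu hv) h2⟩
  intro u v huv
  rcases h u v huv with ⟨h1, h2⟩ | ⟨h1, h2⟩
  · exact key u v h1 h2
  · exact (key v u h1 h2).symm

/-- Rotation of three heights. -/
theorem Strict.rot3 (h : Strict H c τ) {x y z : V} (h1 : τ x < τ y) (h2 : τ y < τ z) :
    ∃ c' τ', Strict H c' τ' ∧ τ' z < τ' x ∧ τ' x < τ' y ∧ c' x = c x ∧ c' y = c y ∧
      c' z = c z + 1 := by
  obtain ⟨τ', g1, g2, g3⟩ := h.cyc (τ y)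
  exact ⟨_, τ', g1, g3 z x h2 h1.not_gt, g2 x y (iff_of_false h1.not_gt (lt_irrefl _)) h1,
    if_neg h1.not_gt, if_neg (lt_irrefl _), if_pos h2⟩

theorem Strict.rot2 (h : Strict H c τ) {x y : V} (h1 : τ x < τ y) :
    ∃ c' τ', Strict H c' τ' ∧ τ' y < τ' x ∧ c' x = c x ∧ c' y = c y + 1 := by
  obtain ⟨τ', g1, g2, g3⟩ := h.cyc (τ x)
  exact ⟨_, τ', g1, g3 y x h1 (lt_irrefl _), if_neg (lt_irrefl _), if_pos h1⟩

/-- **Normal form for two vertices.** -/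
theorem normal2 (h : StrictCol H) {x y : V} (hxy : x ≠ y) :
    ∃ c τ, Strict H c τ ∧ τ x < τ y := by
  obtain ⟨c, τ, h⟩ := h
  obtain ⟨τ, hi, h⟩ := h.inj
  rcases lt_or_gt_of_ne (fun h5 => hxy (hi h5)) with h1 | h1
  · exact ⟨c, τ, h, h1⟩
  · obtain ⟨c', τ', g1, g2, -⟩ := h.rot2 h1
    exact ⟨c', τ', g1, g2⟩

/-- **Normal form for three vertices.** -/
theorem normal3 (h : StrictCol H) {x y z : V} (hxy : x ≠ y) (hxz : x ≠ z) (hyz : y ≠ z) :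
    ∃ c τ, Strict H c τ ∧ τ x < τ y ∧ τ y < τ z := by
  obtain ⟨c, τ, h⟩ := h
  obtain ⟨τ, hi, h⟩ := h.inj
  -- orders of type `y < z < x` and `z < x < y`
  have r1 : ∀ (c : V → ZMod 3) (τ : V → ℝ), Strict H c τ → τ y < τ z → τ z < τ x →
      ∃ c τ, Strict H c τ ∧ τ x < τ y ∧ τ y < τ z := by
    intro c τ h h1 h2
    obtain ⟨c', τ', g1, g2, g3, -⟩ := h.rot3 h1 h2
    exact ⟨c', τ', g1, g2, g3⟩
  have r2 : ∀ (c : V → ZMod 3) (τ : V → ℝ), Strict H c τ → τ z < τ x → τ x < τ y →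
      ∃ c τ, Strict H c τ ∧ τ x < τ y ∧ τ y < τ z := by
    intro c τ h h1 h2
    obtain ⟨c', τ', g1, g2, g3, -⟩ := h.rot3 h1 h2
    exact r1 c' τ' g1 g2 g3
  have n1 : τ x ≠ τ y := fun h5 => hxy (hi h5)
  have n2 : τ x ≠ τ z := fun h5 => hxz (hi h5)
  have n3 : τ y ≠ τ z := fun h5 => hyz (hi h5)
  rcases lt_or_gt_of_ne n1 with h1 | h1 <;> rcases lt_or_gt_of_ne n2 with h2 | h2 <;>
    rcases lt_or_gt_of_ne n3 with h3 | h3
  · exact ⟨c, τ, h, h1, h3⟩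
  · -- `x < z < y`
    exact r1 _ _ h.neg (neg_lt_neg h3) (neg_lt_neg h2)
  · exact absurd (h1.trans h3) h2.not_gt
  · exact r2 _ _ h h2 h1
  · -- `y < x < z`
    exact r2 _ _ h.neg (neg_lt_neg h2) (neg_lt_neg h1)
  · exact absurd (h1.trans h2) h3.not_gt
  · exact r1 _ _ h h3 h2
  · exact ⟨_, _, h.neg, neg_lt_neg h1, neg_lt_neg h3⟩

/-- The part of the graph inside `X`. -/
def side (G : SimpleGraph V) (X : V → Prop) : SimpleGraph V where
  Adj u v := G.Adj u v ∧ X u ∧ X v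
  symm := ⟨fun _ _ h => ⟨h.1.symm, h.2.2, h.2.1⟩⟩
  loopless := ⟨fun _ h => h.1.ne rfl⟩

theorem side_le (G : SimpleGraph V) (X : V → Prop) : side G X ≤ G := fun _ _ h => h.1

/-- **Gluing over two edges.** -/
theorem glue2 {G : SimpleGraph V} (X : V → Prop) {a1 a2 b1 b2 : V} (ha : a1 ≠ a2) (hb : b1 ≠ b2)
    (h1 : StrictCol (side G X)) (h2 : StrictCol (side G fun v => ¬ X v))
    (hcut : ∀ u v, X u → ¬ X v → G.Adj u v → (u = a1 ∧ v = b1) ∨ (u = a2 ∧ v = b2)) :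
    StrictCol G := by
  obtain ⟨c1, τ1, g1, l1⟩ := normal2 h1 ha
  obtain ⟨c2, τ2, g2, l2⟩ := normal2 h2 hb
  obtain ⟨x, x1, x2⟩ : ∃ x : ZMod 3, c2 b1 + x ≠ c1 a1 ∧ c2 b2 + x ≠ c1 a2 := by
    generalize c2 b1 = p
    generalize c2 b2 = q
    generalize c1 a1 = r
    generalize c1 a2 = s
    revert p q r s
    decide
  have g3 := g2.addc x
  refine glue (ι := Fin 2) X (c1 := c1) (c2 := fun v => c2 v + x) (τ1 := τ1) (τ2 := τ2)
    (fun u v hu hv huv => g1 u v ⟨huv, hu, hv⟩) (fun u v hu hv huv => g3 u v ⟨huv, hu, hv⟩)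
    ![a1, a2] ![b1, b2] ?_ ?_ ?_
  · intro u v hu hv huv
    rcases hcut u v hu hv huv with h | h
    · exact ⟨0, h⟩
    · exact ⟨1, h⟩
  · intro i
    fin_cases i
    · exact x1
    · exact x2
  · have h3 : ∀ p q : ZMod 3, p = q + 1 → q = p + 1 → False := by decide
    intro i j e1 e2 e3 e4
    fin_cases i <;> fin_cases j
    · exact h3 _ _ e1 e2
    · exact absurd l1 (not_lt.2 e4)
    · exact absurd l2 (not_lt.2 e3)
    · exact h3 _ _ e1 e2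

/-- The exceptional pairs of normal forms. -/
def Exc (s s' r r' : ZMod 3) : Prop :=
  (s = 0 ∧ s' = 0 ∧ r = 1 ∧ r' = 2) ∨ (s = 1 ∧ s' = 2 ∧ r = 0 ∧ r' = 0) ∨
  (s = 2 ∧ s' = 2 ∧ r = 0 ∧ r' = 1) ∨ (s = 0 ∧ s' = 1 ∧ r = 2 ∧ r' = 2) ∨
  (s = 0 ∧ s' = 2 ∧ r = 1 ∧ r' = 1) ∨ (s = 1 ∧ s' = 1 ∧ r = 0 ∧ r' = 2)

instance (s s' r r' : ZMod 3) : Decidable (Exc s s' r r') := by
  unfold Exc
  infer_instance

/-- **Gluing over three edges.** -/
theorem glue3 {G : SimpleGraph V} (X : V → Prop) {a1 a2 a3 b1 b2 b3 : V}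
    {c1 c2 : V → ZMod 3} {τ1 τ2 : V → ℝ}
    (g1 : Strict (side G X) c1 τ1) (g2 : Strict (side G fun v => ¬ X v) c2 τ2)
    (l1 : τ1 a1 < τ1 a2) (l2 : τ1 a2 < τ1 a3) (m1 : τ2 b1 < τ2 b2) (m2 : τ2 b2 < τ2 b3)
    (hE : ¬ Exc (c1 a2 - c1 a1) (c1 a3 - c1 a1) (c2 b2 - c2 b1) (c2 b3 - c2 b1))
    (hcut : ∀ u v, X u → ¬ X v → G.Adj u v →
      (u = a1 ∧ v = b1) ∨ (u = a2 ∧ v = b2) ∨ (u = a3 ∧ v = b3)) :
    StrictCol G := by
  have h3 : ∀ p q : ZMod 3, p = q + 1 → q = p + 1 → False := by decide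
  -- the general step
  have step : ∀ (d2 : V → ZMod 3) (σ2 : V → ℝ), Strict (side G fun v => ¬ X v) d2 σ2 →
      (d2 b1 ≠ c1 a1 ∧ d2 b2 ≠ c1 a2 ∧ d2 b3 ≠ c1 a3) →
      (σ2 b2 ≤ σ2 b1 → d2 b2 = c1 a2 + 1 → c1 a1 = d2 b1 + 1 → False) →
      (σ2 b3 ≤ σ2 b1 → d2 b3 = c1 a3 + 1 → c1 a1 = d2 b1 + 1 → False) →
      (σ2 b3 ≤ σ2 b2 → d2 b3 = c1 a3 + 1 → c1 a2 = d2 b2 + 1 → False) → StrictCol G := by
    intro d2 σ2 g3 hne q1 q2 q3
    refine glue (ι := Fin 3) X (c1 := c1) (c2 := d2) (τ1 := τ1) (τ2 := σ2)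
      (fun u v hu hv huv => g1 u v ⟨huv, hu, hv⟩) (fun u v hu hv huv => g3 u v ⟨huv, hu, hv⟩)
      ![a1, a2, a3] ![b1, b2, b3] ?_ ?_ ?_
    · intro u v hu hv huv
      rcases hcut u v hu hv huv with h | h | h
      · exact ⟨0, h⟩
      · exact ⟨1, h⟩
      · exact ⟨2, h⟩
    · intro i
      fin_cases i
      · exact hne.1
      · exact hne.2.1
      · exact hne.2.2
    · intro i j e1 e2 e3 e4
      fin_cases i <;> fin_cases j
      · exact h3 _ _ e1 e2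
      · exact absurd l1 (not_lt.2 e4)
      · exact absurd (l1.trans l2) (not_lt.2 e4)
      · exact q1 e3 e1 e2
      · exact h3 _ _ e1 e2
      · exact absurd l2 (not_lt.2 e4)
      · exact q2 e3 e1 e2
      · exact q3 e3 e1 e2
      · exact h3 _ _ e1 e2
  -- the finite check
  have fin : ∀ p1 p2 p3 q1 q2 q3 : ZMod 3, Exc (p2 - p1) (p3 - p1) (q2 - q1) (q3 - q1) ∨
      (∃ x : ZMod 3, q1 + x ≠ p1 ∧ q2 + x ≠ p2 ∧ q3 + x ≠ p3) ∨
      (∃ x : ZMod 3, (-q1 + 1 + x ≠ p1 ∧ -q2 + x ≠ p2 ∧ -q3 + x ≠ p3) ∧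
        ¬ (-q3 + x = p3 + 1 ∧ p2 = -q2 + x + 1)) ∨
      (∃ x : ZMod 3, (-q1 + 1 + x ≠ p1 ∧ -q2 + 1 + x ≠ p2 ∧ -q3 + x ≠ p3) ∧
        ¬ (-q2 + 1 + x = p2 + 1 ∧ p1 = -q1 + 1 + x + 1)) := by
    decide
  rcases fin (c1 a1) (c1 a2) (c1 a3) (c2 b1) (c2 b2) (c2 b3) with h | ⟨x, h⟩ | ⟨x, h, h'⟩ |
    ⟨x, h, h'⟩
  · exact absurd h hE
  · exact step _ _ (g2.addc x) h (fun h5 => absurd m1 (not_lt.2 h5))
      (fun h5 => absurd (m1.trans m2) (not_lt.2 h5)) (fun h5 => absurd m2 (not_lt.2 h5))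
  · -- order `1 < 3 < 2`
    obtain ⟨c', τ', f1, f2, f3, f4, f5, f6⟩ :=
      g2.neg.rot3 (x := b3) (y := b2) (z := b1) (neg_lt_neg m2) (neg_lt_neg m1)
    refine step _ _ (f1.addc x) ⟨?_, ?_, ?_⟩ ?_ ?_ ?_
    · show c' b1 + x ≠ _
      rw [f6]
      exact h.1
    · show c' b2 + x ≠ _
      rw [f5]
      exact h.2.1
    · show c' b3 + x ≠ _
      rw [f4]
      exact h.2.2
    · intro h5
      exact absurd (f2.trans f3) (not_lt.2 h5)
    · intro h5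
      exact absurd f2 (not_lt.2 h5)
    · intro _ h6 h7
      refine h' ⟨?_, ?_⟩
      · have h8 : c' b3 + x = c1 a3 + 1 := h6
        rw [f4] at h8
        exact h8
      · have h8 : c1 a2 = c' b2 + x + 1 := h7
        rw [f5] at h8
        exact h8
  · -- order `2 < 1 < 3`
    obtain ⟨c', τ', f1, f2, f3, f4, f5, f6⟩ :=
      g2.neg.rot3 (x := b3) (y := b2) (z := b1) (neg_lt_neg m2) (neg_lt_neg m1)
    obtain ⟨c'', τ'', e1, e2, e3, e4, e5, e6⟩ :=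
      f1.rot3 (x := b1) (y := b3) (z := b2) f2 f3
    refine step _ _ (e1.addc x) ⟨?_, ?_, ?_⟩ ?_ ?_ ?_
    · show c'' b1 + x ≠ _
      rw [e4, f6]
      exact h.1
    · show c'' b2 + x ≠ _
      rw [e6, f5]
      exact h.2.1
    · show c'' b3 + x ≠ _
      rw [e5, f4]
      exact h.2.2
    · intro _ h6 h7
      refine h' ⟨?_, ?_⟩
      · have h8 : c'' b2 + x = c1 a2 + 1 := h6
        rw [e6, f5] at h8
        exact h8
      · have h8 : c1 a1 = c'' b1 + x + 1 := h7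
        rw [e4, f6] at h8
        exact h8
    · intro h5
      exact absurd e3 (not_lt.2 h5)
    · intro h5
      exact absurd (e2.trans e3) (not_lt.2 h5)

end Pool.Agent.Red
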