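import Mathlib
import Pool.Agent.Work.MP_392c8e_co_red.Glue3

/-!
# Small edge cuts of a smallest graph without strict colourings
-/

namespace Pool.Agent.Red

open Finset

set_option linter.unusedSectionVars false

variable {V : Type} [Fintype V] [DecidableEq V] {G : SimpleGraph V}

/-- The edges leaving a set of vertices. -/
def leave (G : SimpleGraph V) (A : Set V) : Set (V × V) :=
  {p | p.1 ∈ A ∧ p.2 ∉ A ∧ G.Adj p.1 p.2}

theorem mem_leave {A : Set V} {p : V × V} :
    p ∈ leave G A ↔ p.1 ∈ A ∧ p.2 ∉ A ∧ G.Adj p.1 p.2 := Iff.rfl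

theorem leave_compl_ncard (A : Set V) : (leave G Aᶜ).ncard = (leave G A).ncard := by
  have h1 : leave G Aᶜ = Prod.swap '' leave G A := by
    ext ⟨u, v⟩
    constructor
    · rintro ⟨h1, h2, h3⟩
      refine ⟨(v, u), ⟨?_, h1, h3.symm⟩, rfl⟩
      by_contra h4
      exact h2 h4
    · rintro ⟨⟨x, y⟩, ⟨h1, h2, h3⟩, h4⟩
      obtain ⟨rfl, rfl⟩ := Prod.mk.inj h4
      exact ⟨h2, fun h5 => h5 h1, h3.symm⟩
  rw [h1, Set.ncard_image_of_injective _ Prod.swap_injective]

/-- Proper subgraphs have strict colourings. -/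
theorem MinCex.sub (h : MinCex G) {H : SimpleGraph V} (hle : H ≤ G) {u v : V} (huv : G.Adj u v)
    (hn : ¬ H.Adj u v) : StrictCol H := by
  refine h.min V H (h.pl.del hle) (h.tri.anti hle) (fun w => ?_) ?_
  · exact (Set.ncard_le_ncard (fun x hx => hle hx) (Set.toFinite _)).trans (h.deg w)
  · refine Set.ncard_lt_ncard ?_ (Set.toFinite _)
    refine ⟨SimpleGraph.edgeSet_mono hle, fun h5 => hn ?_⟩
    exact h5 (show s(u, v) ∈ G.edgeSet from huv)

/-- A cut without edges. -/
theorem MinCex.cut_zero (h : MinCex G) (A : Set V) (hA : leave G A = ∅) :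
    A = ∅ ∨ A = Set.univ := by
  by_contra hcon
  rw [not_or] at hcon
  obtain ⟨h1, h2⟩ := hcon
  obtain ⟨x, hx⟩ := Set.nonempty_iff_ne_empty.2 h1
  obtain ⟨y, hy⟩ := (Set.ne_univ_iff_exists_notMem A).1 h2
  obtain ⟨x', hx'⟩ := h.noiso x
  obtain ⟨y', hy'⟩ := h.noiso y
  have hno : ∀ u v, u ∈ A → v ∉ A → ¬ G.Adj u v := by
    intro u v hu hv huv
    have : (u, v) ∈ leave G A := ⟨hu, hv, huv⟩
    rw [hA] at this
    exact this
  have s1 : StrictCol (side G (· ∈ A)) := h.sub (side_le _ _) hy' fun h5 => hy h5.2.1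
  have s2 : StrictCol (side G fun v => ¬ v ∈ A) := h.sub (side_le _ _) hx' fun h5 => h5.2.1 hx
  obtain ⟨c1, τ1, g1⟩ := s1
  obtain ⟨c2, τ2, g2⟩ := s2
  refine h.bad (glue (ι := Empty) (· ∈ A) (c1 := c1) (c2 := c2) (τ1 := τ1) (τ2 := τ2)
    (fun u v hu hv huv => g1 u v ⟨huv, hu, hv⟩) (fun u v hu hv huv => g2 u v ⟨huv, hu, hv⟩)
    Empty.elim Empty.elim ?_ (fun i => i.elim) (fun i => i.elim))
  intro u v hu hv huv
  exact absurd huv (hno u v hu hv)

/-- No cut has exactly one edge. -/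
theorem MinCex.cut_one (h : MinCex G) (A : Set V) : (leave G A).ncard ≠ 1 := by
  intro h1
  rw [Set.ncard_eq_one] at h1
  obtain ⟨⟨a, b⟩, hab⟩ := h1
  have h2 : (a, b) ∈ leave G A := by rw [hab]; rfl
  obtain ⟨ha, hb, hadj⟩ := h2
  have s1 : StrictCol (side G (· ∈ A)) := h.sub (side_le _ _) hadj fun h5 => hb h5.2.2
  have s2 : StrictCol (side G fun v => ¬ v ∈ A) := h.sub (side_le _ _) hadj fun h5 => h5.2.1 ha
  obtain ⟨c1, τ1, g1⟩ := s1
  obtain ⟨c2, τ2, g2⟩ := s2
  have g3 := g2.addc (c1 a + 1 - c2 b)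
  refine h.bad (glue (ι := Unit) (· ∈ A) (c1 := c1) (c2 := fun v => c2 v + (c1 a + 1 - c2 b))
    (τ1 := τ1) (τ2 := τ2)
    (fun u v hu hv huv => g1 u v ⟨huv, hu, hv⟩) (fun u v hu hv huv => g3 u v ⟨huv, hu, hv⟩)
    (fun _ => a) (fun _ => b) ?_ ?_ ?_)
  · intro u v hu hv huv
    have : (u, v) ∈ leave G A := ⟨hu, hv, huv⟩
    rw [hab] at this
    exact ⟨(), Prod.mk.inj this⟩
  · intro _ h5
    have h6 : c2 b + (c1 a + 1 - c2 b) = c1 a := h5
    have h7 : ∀ x y : ZMod 3, y + (x + 1 - y) ≠ x := by decide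
    exact h7 _ _ h6
  · intro _ _ h5 h6
    have h3 : ∀ p q : ZMod 3, p = q + 1 → q = p + 1 → False := by decide
    exact fun _ _ => h3 _ _ h5 h6

theorem MinCex.ge_two (h : MinCex G) {A : Set V} (h1 : A.Nonempty) (h2 : A ≠ Set.univ) :
    2 ≤ (leave G A).ncard := by
  have h3 := h.cut_one A
  have h4 : (leave G A).ncard ≠ 0 := by
    intro h5
    rw [Set.ncard_eq_zero (Set.toFinite _)] at h5
    rcases h.cut_zero A h5 with h6 | h6
    · exact h1.ne_empty h6
    · exact h2 h6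
  omega

theorem MinCex.nonempty (h : MinCex G) : Nonempty V := by
  by_contra h1
  rw [not_nonempty_iff] at h1
  exact h.bad ⟨fun _ => 0, fun _ => 0, fun u => h1.elim u⟩

theorem MinCex.connected (h : MinCex G) : G.Connected := by
  have := h.nonempty
  rw [SimpleGraph.connected_iff]
  refine ⟨fun u v => ?_, h.nonempty⟩
  have h1 := h.cut_zero {w | G.Reachable u w} (by
    ext ⟨x, y⟩
    simp only [Set.mem_empty_iff_false, iff_false]
    rintro ⟨hx, hy, hxy⟩
    exact hy (SimpleGraph.Reachable.trans hx hxy.reachable))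
  rcases h1 with h1 | h1
  · exfalso
    have : u ∈ {w | G.Reachable u w} := SimpleGraph.Reachable.refl u
    rw [h1] at this
    exact this
  · have : v ∈ {w | G.Reachable u w} := by rw [h1]; exact Set.mem_univ v
    exact this

theorem leave_singleton (v : V) : (leave G {v}).ncard = (G.neighborSet v).ncard := by
  have h1 : leave G {v} = (fun w => (v, w)) '' G.neighborSet v := by
    ext ⟨x, y⟩
    constructor
    · rintro ⟨h1, h2, h3⟩
      have h1' : x = v := h1
      subst h1'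
      exact ⟨y, h3, rfl⟩
    · rintro ⟨w, hw, h4⟩
      obtain ⟨rfl, rfl⟩ := Prod.mk.inj h4
      exact ⟨rfl, fun h5 => (hw : G.Adj v w).ne (Eq.symm h5), hw⟩
  rw [h1, Set.ncard_image_of_injective _ (Prod.mk_right_injective v)]

theorem MinCex.two_le (h : MinCex G) (v : V) : 2 ≤ (G.neighborSet v).ncard := by
  rw [← leave_singleton]
  refine h.ge_two ⟨v, rfl⟩ fun h5 => ?_
  obtain ⟨w, hw⟩ := h.noiso v
  have : w ∈ ({v} : Set V) := by rw [h5]; exact Set.mem_univ w
  exact hw.ne (Eq.symm this)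

/-- Removing a vertex with two cut edges. -/
theorem leave_erase (A : Set V) {a b b' : V} (ha : a ∈ A) (hb : b ∉ A) (hb' : b' ∉ A)
    (hab : G.Adj a b) (hab' : G.Adj a b') (hbb : b ≠ b') (hd : (G.neighborSet a).ncard ≤ 3) :
    (leave G (A \ {a})).ncard + 1 ≤ (leave G A).ncard := by
  -- edges from `A \ a` to `a`
  have h1 : leave G (A \ {a}) ⊆ (leave G A \ {(a, b), (a, b')}) ∪
      (fun w => (w, a)) '' (G.neighborSet a \ {b, b'}) := by
    rintro ⟨x, y⟩ ⟨⟨h1, h2⟩, h3, h4⟩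
    have h2' : x ≠ a := h2
    by_cases h5 : y = a
    · subst h5
      right
      refine ⟨x, ⟨h4.symm, ?_⟩, rfl⟩
      rintro (h6 | h6)
      · subst h6; exact hb h1
      · have : x = b' := h6
        subst this; exact hb' h1
    · left
      refine ⟨⟨h1, fun h6 => h3 ⟨h6, h5⟩, h4⟩, ?_⟩
      rintro (h6 | h6)
      · exact h2' (congrArg Prod.fst h6)
      · exact h2' (congrArg Prod.fst (show (x, y) = (a, b') from h6))
  have h2 : ({(a, b), (a, b')} : Set (V × V)) ⊆ leave G A := by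
    rintro p (rfl | h6)
    · exact ⟨ha, hb, hab⟩
    · have : p = (a, b') := h6
      subst this
      exact ⟨ha, hb', hab'⟩
  have h3 : ({(a, b), (a, b')} : Set (V × V)).ncard = 2 :=
    Set.ncard_pair fun h5 => hbb (congrArg Prod.snd h5)
  have h4 : ({b, b'} : Set V) ⊆ G.neighborSet a := by
    rintro p (rfl | h6)
    · exact hab
    · have : p = b' := h6
      subst this
      exact hab'
  have h5 : ({b, b'} : Set V).ncard = 2 := Set.ncard_pair hbb
  have h6 := Set.ncard_le_ncard h1 (Set.toFinite _)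
  have h7 := Set.ncard_union_le (leave G A \ {(a, b), (a, b')})
    ((fun w => (w, a)) '' (G.neighborSet a \ {b, b'}))
  have h8 := Set.ncard_image_le (f := fun w => (w, a)) (Set.toFinite (G.neighborSet a \ {b, b'}))
  have h9 := Set.ncard_sdiff h2 (Set.toFinite _)
  have h10 := Set.ncard_sdiff h4 (Set.toFinite _)
  have h11 := Set.ncard_le_ncard h2 (Set.toFinite _)
  omega

end Pool.Agent.Red
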