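import Mathlib
import Pool.Agent.Work.MP_392c8e_co_red.Cuts

/-!
# Cuts with three edges with distinct ends
-/

namespace Pool.Agent.Red

open Finset

set_option linter.unusedSectionVars false

variable {V : Type} [Fintype V] [DecidableEq V] {G : SimpleGraph V}

/-- A cut with exactly three edges `a i`, `b i` with distinct ends on both sides. -/
structure Cut3 (G : SimpleGraph V) (X : V → Prop) (a b : Fin 3 → V) : Prop where
  hX : ∀ i, X (a i)
  hY : ∀ i, ¬ X (b i)
  adj : ∀ i, G.Adj (a i) (b i)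
  ia : Function.Injective a
  ib : Function.Injective b
  cut : ∀ u v, X u → ¬ X v → G.Adj u v → ∃ i, u = a i ∧ v = b i

theorem Cut3.compl {X : V → Prop} {a b : Fin 3 → V} (h : Cut3 G X a b) :
    Cut3 G (fun v => ¬ X v) b a where
  hX := h.hY
  hY i := not_not.2 (h.hX i)
  adj i := (h.adj i).symm
  ia := h.ib
  ib := h.ia
  cut u v hu hv huv := by
    obtain ⟨i, h1, h2⟩ := h.cut v u (not_not.1 hv) hu huv.symm
    exact ⟨i, h2, h1⟩

/-- Every end has a neighbour on its own side. -/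
theorem Cut3.inner (h : MinCex G) {X : V → Prop} {a b : Fin 3 → V} (hc : Cut3 G X a b)
    (i : Fin 3) : ∃ w, ¬ X w ∧ G.Adj (b i) w := by
  have h1 := h.two_le (b i)
  by_contra hcon
  push Not at hcon
  have h2 : G.neighborSet (b i) ⊆ {a i} := by
    intro w hw
    have hw' : G.Adj (b i) w := hw
    have hXw : X w := by
      by_contra h5
      exact hcon w h5 hw'
    obtain ⟨j, h3, h4⟩ := hc.cut w (b i) hXw (hc.hY i) hw'.symm
    have := hc.ib h4
    rw [← this] at h3
    exact h3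
  have h3 := Set.ncard_le_ncard h2 (Set.toFinite _)
  rw [Set.ncard_singleton] at h3
  omega

/-- Two different edges on the side of the `b i`. -/
theorem Cut3.two_edges (h : MinCex G) {X : V → Prop} {a b : Fin 3 → V} (hc : Cut3 G X a b) :
    ∃ e f : Sym2 V, e ≠ f ∧ e ∈ (side G fun v => ¬ X v).edgeSet ∧
      f ∈ (side G fun v => ¬ X v).edgeSet := by
  obtain ⟨w, hw, hbw⟩ := hc.inner h 0
  obtain ⟨j, hj0, hjw⟩ : ∃ j : Fin 3, j ≠ 0 ∧ b j ≠ w := by
    by_contra hcon
    push Not at hcon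
    have h1 := hcon 1 (by decide)
    have h2 := hcon 2 (by decide)
    exact absurd (hc.ib (h1.trans h2.symm)) (by decide)
  obtain ⟨w', hw', hbw'⟩ := hc.inner h j
  refine ⟨s(b 0, w), s(b j, w'), ?_, ⟨hbw, hc.hY 0, hw⟩, ⟨hbw', hc.hY j, hw'⟩⟩
  intro h5
  rcases Sym2.eq_iff.1 h5 with ⟨h6, -⟩ | ⟨-, h6⟩
  · exact hj0 (hc.ib h6).symm
  · exact hjw h6.symm

/-- The sides are connected. -/
theorem Cut3.conn (h : MinCex G) {X : V → Prop} {a b : Fin 3 → V} (hc : Cut3 G X a b)
    (φ : V → ℚ) (hφ : ∀ u v, G.Adj u v → ¬ X u → ¬ X v → φ u = φ v) :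
    ∀ u v, ¬ X u → ¬ X v → φ u = φ v := by
  classical
  intro x y hx hy
  by_contra hne
  have key : ∀ B : Set V, B ⊆ {w | ¬ X w} → (∀ u v, u ∈ B → ¬ X v → G.Adj u v → v ∈ B) →
      leave G B = (fun i => (b i, a i)) '' {i | b i ∈ B} := by
    intro B hB hB2
    ext ⟨u, v⟩
    constructor
    · rintro ⟨h1, h2, h3⟩
      have h4 : X v := by
        by_contra h5
        exact h2 (hB2 u v h1 h5 h3)
      obtain ⟨i, h5, h6⟩ := hc.cut v u h4 (hB h1) h3.symm
      have h1' : u ∈ B := h1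
      refine ⟨i, ?_, ?_⟩
      · show b i ∈ B
        rw [← h6]
        exact h1'
      · show (b i, a i) = (u, v)
        rw [h5, h6]
    · rintro ⟨i, h1, h2⟩
      obtain ⟨rfl, rfl⟩ := Prod.mk.inj h2
      exact ⟨h1, fun h5 => hB h5 (hc.hX i), (hc.adj i).symm⟩
  have hinj : Function.Injective fun i => (b i, a i) := fun i j hij =>
    hc.ib (congrArg Prod.fst hij)
  set B : Set V := {w | ¬ X w ∧ φ w = φ x} with hB
  set B' : Set V := {w | ¬ X w ∧ φ w ≠ φ x} with hB'
  have k1 := key B (fun w hw => hw.1) (fun u v hu hv huv => ⟨hv, by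
    rw [← hφ u v huv hu.1 hv]; exact hu.2⟩)
  have k2 := key B' (fun w hw => hw.1) (fun u v hu hv huv => ⟨hv, by
    rw [← hφ u v huv hu.1 hv]; exact hu.2⟩)
  have n1 : 2 ≤ (leave G B).ncard := h.ge_two ⟨x, hx, rfl⟩ fun h5 => by
    have : a 0 ∈ B := by rw [h5]; exact Set.mem_univ _
    exact this.1 (hc.hX 0)
  have n2 : 2 ≤ (leave G B').ncard := h.ge_two ⟨y, hy, fun h5 => hne h5.symm⟩ fun h5 => by
    have : a 0 ∈ B' := by rw [h5]; exact Set.mem_univ _
    exact this.1 (hc.hX 0)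
  rw [k1, Set.ncard_image_of_injective _ hinj] at n1
  rw [k2, Set.ncard_image_of_injective _ hinj] at n2
  have h6 : Disjoint {i : Fin 3 | b i ∈ B} {i | b i ∈ B'} := by
    rw [Set.disjoint_left]
    intro i h1 h2
    exact h2.2 h1.2
  have h7 := Set.ncard_union_eq h6 (Set.toFinite _) (Set.toFinite _)
  have h8 := Set.ncard_le_ncard (Set.subset_univ ({i : Fin 3 | b i ∈ B} ∪ {i | b i ∈ B'}))
    (Set.toFinite _)
  rw [Set.ncard_univ, Nat.card_eq_fintype_card, Fintype.card_fin] at h8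
  omega

/-- The side `X` with the other side contracted to the vertex `z`. -/
def starG (G : SimpleGraph V) (X : V → Prop) (a : Fin 3 → V) (z : V) (hX : ∀ i, X (a i))
    (hz : ¬ X z) : SimpleGraph V where
  Adj x y := (G.Adj x y ∧ X x ∧ X y) ∨ ∃ i, (x = a i ∧ y = z) ∨ (x = z ∧ y = a i)
  symm := ⟨fun x y h => by
    rcases h with ⟨h1, h2, h3⟩ | ⟨i, h1 | h1⟩
    · exact Or.inl ⟨h1.symm, h3, h2⟩
    · exact Or.inr ⟨i, Or.inr ⟨h1.2, h1.1⟩⟩
    · exact Or.inr ⟨i, Or.inl ⟨h1.2, h1.1⟩⟩⟩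
  loopless := ⟨fun x h => by
    rcases h with ⟨h1, -, -⟩ | ⟨i, ⟨h1, h2⟩ | ⟨h1, h2⟩⟩
    · exact h1.ne rfl
    · exact hz (h2 ▸ h1 ▸ hX i)
    · exact hz (h1 ▸ h2 ▸ hX i)⟩

theorem pl_starG (h : MinCex G) {X : V → Prop} {a b : Fin 3 → V} (hc : Cut3 G X a b) (z : V)
    (hz : ¬ X z) : Pl (starG G X a z hc.hX hz) := by
  classical
  set π : V → V := fun x => if X x then x else z with hπ
  have p1 : ∀ x, X x → π x = x := fun x hx => if_pos hx
  have p2 : ∀ x, ¬ X x → π x = z := fun x hx => if_neg hx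
  have hzX : ∀ x, X x → x ≠ z := fun x hx h5 => hz (h5 ▸ hx)
  refine h.pl.contract π ?_ ?_ ?_ ?_
  · intro u v huv hne
    by_cases hu : X u <;> by_cases hv : X v
    · rw [p1 u hu, p1 v hv]
      exact Or.inl ⟨huv, hu, hv⟩
    · rw [p1 u hu, p2 v hv]
      obtain ⟨i, h1, h2⟩ := hc.cut u v hu hv huv
      exact Or.inr ⟨i, Or.inl ⟨h1, rfl⟩⟩
    · rw [p2 u hu, p1 v hv]
      obtain ⟨i, h1, h2⟩ := hc.cut v u hv hu huv.symm
      exact Or.inr ⟨i, Or.inr ⟨rfl, h1⟩⟩
    · rw [p2 u hu, p2 v hv] at hne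
      exact absurd rfl hne
  · rintro x y (⟨h1, h2, h3⟩ | ⟨i, ⟨rfl, rfl⟩ | ⟨rfl, rfl⟩⟩)
    · exact ⟨x, y, h1, p1 x h2, p1 y h3⟩
    · exact ⟨a i, b i, hc.adj i, p1 _ (hc.hX i), p2 _ (hc.hY i)⟩
    · exact ⟨b i, a i, (hc.adj i).symm, p2 _ (hc.hY i), p1 _ (hc.hX i)⟩
  · intro u v u' v' huv huv' e1 e2 hne
    by_cases hu : X u
    · have hu' : X u' := by
        by_contra h5
        rw [p1 u hu, p2 u' h5] at e1
        exact hzX u hu e1
      rw [p1 u hu, p1 u' hu'] at e1
      refine ⟨e1, ?_⟩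
      by_cases hv : X v
      · have hv' : X v' := by
          by_contra h5
          rw [p1 v hv, p2 v' h5] at e2
          exact hzX v hv e2
        rw [p1 v hv, p1 v' hv'] at e2
        exact e2
      · have hv' : ¬ X v' := by
          intro h5
          rw [p2 v hv, p1 v' h5] at e2
          exact hzX v' h5 e2.symm
        obtain ⟨i, h1, h2⟩ := hc.cut u v hu hv huv
        obtain ⟨j, h3, h4⟩ := hc.cut u' v' hu' hv' huv'
        have : i = j := hc.ia (by rw [← h1, ← h3, e1])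
        rw [h2, h4, this]
    · have hu' : ¬ X u' := by
        intro h5
        rw [p2 u hu, p1 u' h5] at e1
        exact hzX u' h5 e1.symm
      have hv : X v := by
        by_contra h5
        rw [p2 u hu, p2 v h5] at hne
        exact hne rfl
      have hv' : X v' := by
        by_contra h5
        rw [p1 v hv, p2 v' h5] at e2
        exact hzX v hv e2
      rw [p1 v hv, p1 v' hv'] at e2
      obtain ⟨i, h1, h2⟩ := hc.cut v u hv hu huv.symm
      obtain ⟨j, h3, h4⟩ := hc.cut v' u' hv' hu' huv'.symm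
      have : i = j := hc.ia (by rw [← h1, ← h3, e2])
      exact ⟨by rw [h2, h4, this], e2⟩
  · intro φ hφ u v huv
    by_cases hu : X u
    · have hv : X v := by
        by_contra h5
        rw [p1 u hu, p2 v h5] at huv
        exact hzX u hu huv
      rw [p1 u hu, p1 v hv] at huv
      rw [huv]
    · have hv : ¬ X v := by
        intro h5
        rw [p2 u hu, p1 v h5] at huv
        exact hzX v h5 huv.symm
      refine hc.conn h φ (fun x y hxy hx hy => hφ x y hxy ?_) u v hu hv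
      rw [p2 x hx, p2 y hy]

end Pool.Agent.Red
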