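import Mathlib
import Pool.Agent.Work.MP_392c8e_co_red.Gadget

/-!
# The gadget with two new vertices in place of one side of a cut
-/

namespace Pool.Agent.Red

open Finset

set_option linter.unusedSectionVars false

variable {V : Type} [Fintype V] [DecidableEq V] {G : SimpleGraph V}

/-- `starG` with the edge `a i`, `z` subdivided by `u`. -/
def gadG (G : SimpleGraph V) (X : V → Prop) (a : Fin 3 → V) (z u : V) (hX : ∀ i, X (a i))
    (hz : ¬ X z) (hu : ¬ X u) (huz : u ≠ z) (i : Fin 3) : SimpleGraph V where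
  Adj x y := ((starG G X a z hX hz).Adj x y ∧ s(x, y) ≠ s(a i, z)) ∨ s(x, y) = s(a i, u) ∨
    s(x, y) = s(u, z)
  symm := ⟨fun x y h => by
    rw [Sym2.eq_swap (a := y) (b := x)]
    rcases h with ⟨h1, h2⟩ | h1
    · exact Or.inl ⟨h1.symm, h2⟩
    · exact Or.inr h1⟩
  loopless := ⟨fun x h => by
    rcases h with ⟨h1, -⟩ | h1 | h1
    · exact h1.ne rfl
    · rcases Sym2.eq_iff.1 h1 with ⟨h2, h3⟩ | ⟨h2, h3⟩
      · exact hu (h3 ▸ h2 ▸ hX i)
      · exact hu (h2 ▸ h3 ▸ hX i)
    · rcases Sym2.eq_iff.1 h1 with ⟨h2, h3⟩ | ⟨h2, h3⟩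
      · exact huz (h2.symm.trans h3)
      · exact huz (h3.symm.trans h2)⟩

section

variable {X : V → Prop} {a b : Fin 3 → V} {z u : V} (hX : ∀ i, X (a i)) (hz : ¬ X z)
  (hu : ¬ X u) (huz : u ≠ z) (i : Fin 3)

theorem gadG_in {x y : V} (hx : X x) (hy : X y) :
    (gadG G X a z u hX hz hu huz i).Adj x y ↔ G.Adj x y := by
  have h1 : y ≠ z := fun h => hz (h ▸ hy)
  have h2 : x ≠ z := fun h => hz (h ▸ hx)
  have h3 : y ≠ u := fun h => hu (h ▸ hy)
  have h4 : x ≠ u := fun h => hu (h ▸ hx)
  constructor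
  · rintro (⟨⟨h5, -, -⟩ | ⟨l, ⟨-, h5⟩ | ⟨h5, -⟩⟩, -⟩ | h5 | h5)
    · exact h5
    · exact absurd h5 h1
    · exact absurd h5 h2
    · rcases Sym2.eq_iff.1 h5 with ⟨-, h6⟩ | ⟨h6, -⟩
      · exact absurd h6 h3
      · exact absurd h6 h4
    · rcases Sym2.eq_iff.1 h5 with ⟨h6, -⟩ | ⟨h6, -⟩
      · exact absurd h6 h4
      · exact absurd h6 h2
  · intro h5
    refine Or.inl ⟨Or.inl ⟨h5, hx, hy⟩, fun h6 => ?_⟩
    rcases Sym2.eq_iff.1 h6 with ⟨-, h7⟩ | ⟨h7, -⟩
    · exact h1 h7
    · exact h2 h7

theorem gadG_z (ha : Function.Injective a) {x : V} :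
    (gadG G X a z u hX hz hu huz i).Adj x z ↔ (∃ l, l ≠ i ∧ x = a l) ∨ x = u := by
  constructor
  · rintro (⟨⟨-, -, h5⟩ | ⟨l, ⟨h5, -⟩ | ⟨h5, h6⟩⟩, h7⟩ | h5 | h5)
    · exact absurd h5 hz
    · refine Or.inl ⟨l, fun h8 => h7 ?_, h5⟩
      rw [h5, h8]
    · exact absurd (h6 ▸ hX l) hz
    · rcases Sym2.eq_iff.1 h5 with ⟨-, h6⟩ | ⟨-, h6⟩
      · exact absurd h6.symm huz
      · exact absurd (h6 ▸ hX i) hz
    · rcases Sym2.eq_iff.1 h5 with ⟨h6, -⟩ | ⟨h6, h7⟩
      · exact Or.inr h6
      · exact absurd h7.symm huz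
  · rintro (⟨l, h5, rfl⟩ | rfl)
    · refine Or.inl ⟨Or.inr ⟨l, Or.inl ⟨rfl, rfl⟩⟩, fun h6 => ?_⟩
      rcases Sym2.eq_iff.1 h6 with ⟨h7, -⟩ | ⟨h7, -⟩
      · exact h5 (ha h7)
      · exact hz (h7 ▸ hX l)
    · exact Or.inr (Or.inr rfl)

theorem gadG_u {x : V} :
    (gadG G X a z u hX hz hu huz i).Adj x u ↔ x = a i ∨ x = z := by
  constructor
  · rintro (⟨⟨-, -, h5⟩ | ⟨l, ⟨h5, h6⟩ | ⟨h5, h6⟩⟩, h7⟩ | h5 | h5)
    · exact absurd h5 hu
    · exact absurd h6 huz
    · exact absurd (h6 ▸ hX l) hu
    · rcases Sym2.eq_iff.1 h5 with ⟨h6, -⟩ | ⟨-, h6⟩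
      · exact Or.inl h6
      · exact absurd (h6 ▸ hX i) hu
    · rcases Sym2.eq_iff.1 h5 with ⟨-, h6⟩ | ⟨h6, -⟩
      · exact absurd h6 huz
      · exact Or.inr h6
  · rintro (rfl | rfl)
    · exact Or.inr (Or.inl rfl)
    · exact Or.inr (Or.inr Sym2.eq_swap)

theorem gadG_out {x y : V} (h : (gadG G X a z u hX hz hu huz i).Adj x y) :
    X x ∨ x = z ∨ x = u := by
  rcases h with ⟨⟨-, h5, -⟩ | ⟨l, ⟨h5, -⟩ | ⟨h5, -⟩⟩, -⟩ | h5 | h5
  · exact Or.inl h5
  · exact Or.inl (h5 ▸ hX l)
  · exact Or.inr (Or.inl h5)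
  · rcases Sym2.eq_iff.1 h5 with ⟨h6, -⟩ | ⟨h6, -⟩
    · exact Or.inl (h6 ▸ hX i)
    · exact Or.inr (Or.inr h6)
  · rcases Sym2.eq_iff.1 h5 with ⟨h6, -⟩ | ⟨h6, -⟩
    · exact Or.inr (Or.inr h6)
    · exact Or.inr (Or.inl h6)

end

/-- The gadget graph has a strict colouring. -/
theorem strictCol_gadG (h : MinCex G) {X : V → Prop} {a b : Fin 3 → V} (hc : Cut3 G X a b)
    {z u : V} (hz : ¬ X z) (hu : ¬ X u) (huz : u ≠ z) {i j k : Fin 3} (hij : i ≠ j) (hik : i ≠ k)
    (hjk : j ≠ k) (hna : ¬ G.Adj (a j) (a k)) :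
    StrictCol (gadG G X a z u hc.hX hz hu huz i) := by
  classical
  have hall0 : ∀ i j k : Fin 3, i ≠ j → i ≠ k → j ≠ k → ∀ l : Fin 3, l = i ∨ l = j ∨ l = k := by
    decide
  have hall := hall0 i j k hij hik hjk
  have hall' : ∀ l : Fin 3, l ≠ i → l = j ∨ l = k := fun l hl => (hall l).resolve_left hl
  set H := gadG G X a z u hc.hX hz hu huz i with hH
  have hin : ∀ {x y}, X x → X y → (H.Adj x y ↔ G.Adj x y) := fun hx hy =>
    gadG_in hc.hX hz hu huz i hx hy
  have hadz : ∀ {x}, H.Adj x z ↔ (∃ l, l ≠ i ∧ x = a l) ∨ x = u :=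
    gadG_z hc.hX hz hu huz i hc.ia
  have hadu : ∀ {x}, H.Adj x u ↔ x = a i ∨ x = z := gadG_u hc.hX hz hu huz i
  have hout : ∀ {x y}, H.Adj x y → X x ∨ x = z ∨ x = u := fun h5 =>
    gadG_out hc.hX hz hu huz i h5
  refine h.min V H ?_ ?_ ?_ ?_
  · -- planarity
    refine (pl_starG h hc z hz).subdiv (a := a i) (b := z) (u := u) (Or.inr ⟨i, Or.inl ⟨rfl, rfl⟩⟩)
      ?_ (fun x y => Iff.rfl)
    rintro v (⟨-, h5, -⟩ | ⟨l, ⟨h5, -⟩ | ⟨h5, -⟩⟩)
    · exact hu h5
    · exact hu (h5 ▸ hc.hX l)
    · exact huz h5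
  · -- no triangles
    intro s hs
    rw [SimpleGraph.is3Clique_iff] at hs
    obtain ⟨x, y, w, hxy, hxw, hyw, -⟩ := hs
    -- no triangle through `u`
    have tu : ∀ {x y : V}, H.Adj x u → H.Adj y u → H.Adj x y → False := by
      intro x y h1 h2 h3
      rcases hadu.1 h1 with rfl | rfl <;> rcases hadu.1 h2 with rfl | rfl
      · exact h3.ne rfl
      · rcases hadz.1 h3 with ⟨l, h5, h6⟩ | h6
        · exact h5 (hc.ia h6).symm
        · exact hu (h6 ▸ hc.hX i)
      · rcases hadz.1 h3.symm with ⟨l, h5, h6⟩ | h6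
        · exact h5 (hc.ia h6).symm
        · exact hu (h6 ▸ hc.hX i)
      · exact h3.ne rfl
    have tz : ∀ {x y : V}, H.Adj x z → H.Adj y z → H.Adj x y → False := by
      intro x y h1 h2 h3
      rcases hadz.1 h1 with ⟨l, h5, rfl⟩ | rfl
      · rcases hadz.1 h2 with ⟨m, h6, rfl⟩ | rfl
        · have h7 := (hin (hc.hX l) (hc.hX m)).1 h3
          rcases hall' l h5 with rfl | rfl <;> rcases hall' m h6 with rfl | rfl
          · exact h7.ne rfl
          · exact hna h7
          · exact hna h7.symm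
          · exact h7.ne rfl
        · exact tu h3 h2.symm h1
      · exact tu h3.symm h1.symm h2
    rcases hout hxy with h1 | rfl | rfl
    · rcases hout hxy.symm with h2 | rfl | rfl
      · rcases hout hyw.symm with h3 | rfl | rfl
        · refine h.tri {x, y, w} ?_
          rw [SimpleGraph.is3Clique_iff]
          exact ⟨x, y, w, (hin h1 h2).1 hxy, (hin h1 h3).1 hxw, (hin h2 h3).1 hyw, rfl⟩
        · exact tz hxw hyw hxy
        · exact tu hxw hyw hxy
      · exact tz hxy hyw.symm hxw
      · exact tu hxy hyw.symm hxw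
    · exact tz hxy.symm hxw.symm hyw
    · exact tu hxy.symm hxw.symm hyw
  · -- degrees
    intro x
    by_cases hx : X x
    · by_cases hxa : ∃ l, x = a l
      · obtain ⟨l, rfl⟩ := hxa
        have h1 : H.neighborSet (a l) ⊆
            insert (if l = i then u else z) (G.neighborSet (a l) \ {b l}) := by
          intro y hy
          have hy' : H.Adj (a l) y := hy
          rcases hout hy'.symm with h2 | rfl | rfl
          · refine Or.inr ⟨(hin hx h2).1 hy', fun h3 => ?_⟩
            have h3' : y = b l := h3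
            exact hc.hY l (h3' ▸ h2)
          · left
            rcases hadz.1 hy' with ⟨m, h5, h6⟩ | h6
            · rw [if_neg]
              rw [hc.ia h6]
              exact h5
            · exact absurd (h6 ▸ hc.hX l) hu
          · left
            rcases hadu.1 hy' with h6 | h6
            · rw [if_pos (hc.ia h6)]
            · exact absurd (h6 ▸ hc.hX l) hz
        have h2 := Set.ncard_le_ncard h1 (Set.toFinite _)
        have h3 := Set.ncard_insert_le (if l = i then u else z) (G.neighborSet (a l) \ {b l})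
        have h4 : ({b l} : Set V) ⊆ G.neighborSet (a l) := by
          intro y hy
          have hy' : y = b l := hy
          rw [hy']
          exact hc.adj l
        have h5 := Set.ncard_sdiff h4 (Set.toFinite _)
        rw [Set.ncard_singleton] at h5
        have h6 := h.deg (a l)
        omega
      · refine le_trans (Set.ncard_le_ncard ?_ (Set.toFinite _)) (h.deg x)
        intro y hy
        have hy' : H.Adj x y := hy
        rcases hout hy'.symm with h2 | rfl | rfl
        · exact (hin hx h2).1 hy'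
        · exfalso
          rcases hadz.1 hy' with ⟨m, -, h6⟩ | h6
          · exact hxa ⟨m, h6⟩
          · exact hu (h6 ▸ hx)
        · exfalso
          rcases hadu.1 hy' with h6 | h6
          · exact hxa ⟨i, h6⟩
          · exact hz (h6 ▸ hx)
    · by_cases hxz : x = z
      · subst hxz
        have h1 : H.neighborSet x ⊆ {a j, a k, u} := by
          intro y hy
          have hy' : H.Adj x y := hy
          rcases hadz.1 hy'.symm with ⟨m, h5, rfl⟩ | rfl
          · rcases hall' m h5 with rfl | rfl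
            · exact Or.inl rfl
            · exact Or.inr (Or.inl rfl)
          · exact Or.inr (Or.inr rfl)
        refine (Set.ncard_le_ncard h1 (Set.toFinite _)).trans ?_
        refine (Set.ncard_insert_le _ _).trans ?_
        have h2 := Set.ncard_insert_le (a k) {u}
        rw [Set.ncard_singleton] at h2
        omega
      · by_cases hxu : x = u
        · subst hxu
          have h1 : H.neighborSet x ⊆ {a i, z} := by
            intro y hy
            have hy' : H.Adj x y := hy
            rcases hadu.1 hy'.symm with rfl | rfl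
            · exact Or.inl rfl
            · exact Or.inr rfl
          refine (Set.ncard_le_ncard h1 (Set.toFinite _)).trans ?_
          have h2 := Set.ncard_insert_le (a i) {z}
          rw [Set.ncard_singleton] at h2
          omega
        · have h1 : H.neighborSet x = ∅ := by
            rw [Set.eq_empty_iff_forall_notMem]
            intro y hy
            rcases hout (show H.Adj x y from hy) with h2 | h2 | h2
            · exact hx h2
            · exact hxz h2
            · exact hxu h2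
          rw [h1, Set.ncard_empty]
          omega
  · -- number of edges
    have h1 : H.edgeSet ⊆ (side G X).edgeSet ∪ {s(a j, z), s(a k, z), s(a i, u), s(z, u)} := by
      intro e he
      induction e using Sym2.ind with
      | _ x y =>
        have hxy : H.Adj x y := he
        have cz : ∀ {x y : V}, y = z → H.Adj x y →
            s(x, y) ∈ ({s(a j, z), s(a k, z), s(a i, u), s(z, u)} : Set (Sym2 V)) := by
          rintro x y rfl hxy
          rcases hadz.1 hxy with ⟨m, h5, rfl⟩ | rfl
          · rcases hall' m h5 with rfl | rfl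
            · exact Or.inl rfl
            · exact Or.inr (Or.inl rfl)
          · exact Or.inr (Or.inr (Or.inr Sym2.eq_swap))
        have cu : ∀ {x y : V}, y = u → H.Adj x y →
            s(x, y) ∈ ({s(a j, z), s(a k, z), s(a i, u), s(z, u)} : Set (Sym2 V)) := by
          rintro x y rfl hxy
          rcases hadu.1 hxy with rfl | rfl
          · exact Or.inr (Or.inr (Or.inl rfl))
          · exact Or.inr (Or.inr (Or.inr rfl))
        rcases hout hxy with h2 | h2 | h2
        · rcases hout hxy.symm with h3 | h3 | h3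
          · exact Or.inl ⟨(hin h2 h3).1 hxy, h2, h3⟩
          · exact Or.inr (cz h3 hxy)
          · exact Or.inr (cu h3 hxy)
        · right
          rw [Sym2.eq_swap (a := x) (b := y)]
          exact cz h2 hxy.symm
        · right
          rw [Sym2.eq_swap (a := x) (b := y)]
          exact cu h2 hxy.symm
    obtain ⟨e, f, hef, he, hf⟩ := hc.two_edges h
    have h2 : (side G X).edgeSet ∪ {s(a i, b i), s(a j, b j), s(a k, b k), e, f} ⊆ G.edgeSet := by
      have hsub1 := SimpleGraph.edgeSet_mono (side_le G X)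
      have hsub2 := SimpleGraph.edgeSet_mono (side_le G fun v => ¬ X v)
      rintro p (h5 | rfl | rfl | rfl | rfl | h5)
      · exact hsub1 h5
      · exact hc.adj i
      · exact hc.adj j
      · exact hc.adj k
      · exact hsub2 he
      · have : p = f := h5
        rw [this]
        exact hsub2 hf
    -- all these are different
    have q1 : ∀ l, s(a l, b l) ∉ (side G X).edgeSet := fun l h5 => hc.hY l h5.2.2
    have q2 : ∀ l, s(a l, b l) ∉ (side G fun v => ¬ X v).edgeSet := fun l h5 => h5.2.1 (hc.hX l)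
    have q3 : ∀ e, e ∈ (side G fun v => ¬ X v).edgeSet → e ∉ (side G X).edgeSet := by
      intro e h5 h6
      induction e using Sym2.ind with
      | _ x y => exact h5.2.1 h6.2.1
    have q4 : ∀ l m, s(a l, b l) = s(a m, b m) → l = m := by
      intro l m h5
      rcases Sym2.eq_iff.1 h5 with ⟨h6, -⟩ | ⟨h6, -⟩
      · exact hc.ia h6
      · exact absurd (h6 ▸ hc.hX l) (hc.hY m)
    have h3 : Disjoint (side G X).edgeSet {s(a i, b i), s(a j, b j), s(a k, b k), e, f} := by
      rw [Set.disjoint_right]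
      rintro p (rfl | rfl | rfl | rfl | h5) h6
      · exact q1 i h6
      · exact q1 j h6
      · exact q1 k h6
      · exact q3 _ he h6
      · have : p = f := h5
        rw [this] at h6
        exact q3 _ hf h6
    have h4 : ({s(a i, b i), s(a j, b j), s(a k, b k), e, f} : Set (Sym2 V)).ncard = 5 := by
      have n1 : e ∉ ({f} : Set (Sym2 V)) := fun h5 => hef h5
      have n2 : s(a k, b k) ∉ ({e, f} : Set (Sym2 V)) := by
        rintro (h5 | h5)
        · exact q2 k (h5 ▸ he)
        · exact q2 k ((show s(a k, b k) = f from h5) ▸ hf)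
      have n3 : s(a j, b j) ∉ ({s(a k, b k), e, f} : Set (Sym2 V)) := by
        rintro (h5 | h5 | h5)
        · exact hjk (q4 _ _ h5)
        · exact q2 j (h5 ▸ he)
        · exact q2 j ((show s(a j, b j) = f from h5) ▸ hf)
      have n4 : s(a i, b i) ∉ ({s(a j, b j), s(a k, b k), e, f} : Set (Sym2 V)) := by
        rintro (h5 | h5 | h5 | h5)
        · exact hij (q4 _ _ h5)
        · exact hik (q4 _ _ h5)
        · exact q2 i (h5 ▸ he)
        · exact q2 i ((show s(a i, b i) = f from h5) ▸ hf)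
      rw [Set.ncard_insert_of_notMem n4, Set.ncard_insert_of_notMem n3,
        Set.ncard_insert_of_notMem n2, Set.ncard_insert_of_notMem n1, Set.ncard_singleton]
    have h5 := Set.ncard_le_ncard h2 (Set.toFinite _)
    rw [Set.ncard_union_eq h3 (Set.toFinite _) (Set.toFinite _), h4] at h5
    have h6 := Set.ncard_le_ncard h1 (Set.toFinite _)
    have h7 := Set.ncard_union_le (side G X).edgeSet {s(a j, z), s(a k, z), s(a i, u), s(z, u)}
    have h8 : ({s(a j, z), s(a k, z), s(a i, u), s(z, u)} : Set (Sym2 V)).ncard ≤ 4 := by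
      refine (Set.ncard_insert_le _ _).trans ?_
      have g1 := Set.ncard_insert_le s(a k, z) {s(a i, u), s(z, u)}
      have g2 := Set.ncard_insert_le s(a i, u) {s(z, u)}
      rw [Set.ncard_singleton] at g2
      omega
    omega

end Pool.Agent.Red
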