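import Mathlib
import Pool.Agent.Work.MP_392c8e_co_red.GadgetV

/-!
# All cuts with at most three edges of a smallest graph without strict colourings are trivial
-/

namespace Pool.Agent.Red

open Finset

set_option linter.unusedSectionVars false

theorem excl2 {V : Type*} {c : V → ZMod 3} {τ : V → ℝ} {q r z u p : V}
    (h1 : Up1 c τ q z) (h2 : Up1 c τ r z) (h3 : Up1 c τ z u) (h4 : Up1 c τ u p) :
    ¬ (c q = c p ∧ c r = c p ∧ τ q < τ p ∧ τ p < τ r) := by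
  rintro ⟨e1, e2, l1, l2⟩
  unfold Up1 at h1 h2 h3 h4
  revert e1 e2
  rcases h1 with ⟨x1, y1⟩ | ⟨x1, y1⟩ <;> rcases h2 with ⟨x2, y2⟩ | ⟨x2, y2⟩ <;>
    rcases h3 with ⟨x3, y3⟩ | ⟨x3, y3⟩ <;> rcases h4 with ⟨x4, y4⟩ | ⟨x4, y4⟩ <;>
    first
    | (intros; linarith)
    | (revert x1 x2 x3 x4
       generalize c q = Q
       generalize c r = R
       generalize c z = Z
       generalize c u = U
       generalize c p = P
       revert Q R Z U P
       decide)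

theorem excl1 {V : Type*} {c : V → ZMod 3} {τ : V → ℝ} {q r z u p : V}
    (h1 : Up1 c τ q z) (h2 : Up1 c τ r z) (h3 : Up1 c τ z u) (h4 : Up1 c τ u p) :
    ¬ (c q = c p ∧ c r = c p + 2 ∧ τ p < τ q ∧ τ q < τ r) := by
  rintro ⟨e1, e2, l1, l2⟩
  unfold Up1 at h1 h2 h3 h4
  revert e1 e2
  rcases h1 with ⟨x1, y1⟩ | ⟨x1, y1⟩ <;> rcases h2 with ⟨x2, y2⟩ | ⟨x2, y2⟩ <;>
    rcases h3 with ⟨x3, y3⟩ | ⟨x3, y3⟩ <;> rcases h4 with ⟨x4, y4⟩ | ⟨x4, y4⟩ <;>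
    first
    | (intros; linarith)
    | (revert x1 x2 x3 x4
       generalize c q = Q
       generalize c r = R
       generalize c z = Z
       generalize c u = U
       generalize c p = P
       revert Q R Z U P
       decide)

theorem excl3 {V : Type*} {c : V → ZMod 3} {τ : V → ℝ} {q r z u p : V}
    (h1 : Up1 c τ q z) (h2 : Up1 c τ r z) (h3 : Up1 c τ z u) (h4 : Up1 c τ u p) :
    ¬ (c r = c q + 2 ∧ c p = c q + 2 ∧ τ q < τ r ∧ τ r < τ p) := by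
  rintro ⟨e1, e2, l1, l2⟩
  unfold Up1 at h1 h2 h3 h4
  revert e1 e2
  rcases h1 with ⟨x1, y1⟩ | ⟨x1, y1⟩ <;> rcases h2 with ⟨x2, y2⟩ | ⟨x2, y2⟩ <;>
    rcases h3 with ⟨x3, y3⟩ | ⟨x3, y3⟩ <;> rcases h4 with ⟨x4, y4⟩ | ⟨x4, y4⟩ <;>
    first
    | (intros; linarith)
    | (revert x1 x2 x3 x4
       generalize c q = Q
       generalize c r = R
       generalize c z = Z
       generalize c u = U
       generalize c p = P
       revert Q R Z U P
       decide)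

variable {V : Type} [Fintype V] [DecidableEq V] {G : SimpleGraph V}

/-- A colouring of the gadget graph in normal form. -/
theorem Cut3.gad (h : MinCex G) {X : V → Prop} {a b : Fin 3 → V} (hc : Cut3 G X a b)
    {i j k : Fin 3} (hij : i ≠ j) (hik : i ≠ k) (hjk : j ≠ k) (hna : ¬ G.Adj (a j) (a k)) :
    ∃ c τ, Strict (side G X) c τ ∧ τ (a 0) < τ (a 1) ∧ τ (a 1) < τ (a 2) ∧
      ∃ z u, Up1 c τ (a j) z ∧ Up1 c τ (a k) z ∧ Up1 c τ z u ∧ Up1 c τ u (a i) := by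
  have hz := hc.hY 0
  have hu := hc.hY 1
  have huz : b 1 ≠ b 0 := fun h5 => absurd (hc.ib h5) (by decide)
  obtain ⟨c, τ, g, l1, l2⟩ := normal3 (strictCol_gadG h hc hz hu huz hij hik hjk hna)
    (x := a 0) (y := a 1) (z := a 2) (fun h5 => absurd (hc.ia h5) (by decide))
    (fun h5 => absurd (hc.ia h5) (by decide)) (fun h5 => absurd (hc.ia h5) (by decide))
  refine ⟨c, τ, fun x y hxy => g x y ((gadG_in hc.hX hz hu huz i hxy.2.1 hxy.2.2).2 hxy.1),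
    l1, l2, b 0, b 1, ?_, ?_, ?_, ?_⟩
  · exact g _ _ ((gadG_z hc.hX hz hu huz i hc.ia).2 (Or.inl ⟨j, hij.symm, rfl⟩))
  · exact g _ _ ((gadG_z hc.hX hz hu huz i hc.ia).2 (Or.inl ⟨k, hik.symm, rfl⟩))
  · exact g _ _ ((gadG_u hc.hX hz hu huz i).2 (Or.inr rfl))
  · exact Up1.symm (g _ _ ((gadG_u hc.hX hz hu huz i).2 (Or.inl rfl)))

/-- Another normal form. -/
theorem Cut3.alt (h : MinCex G) {X : V → Prop} {a b : Fin 3 → V} (hc : Cut3 G X a b)
    {c : V → ZMod 3} {τ : V → ℝ} (hs : Strict (side G X) c τ) (l1 : τ (a 0) < τ (a 1))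
    (l2 : τ (a 1) < τ (a 2)) {s s' : ZMod 3}
    (hM : (s = 0 ∧ s' = 0) ∨ (s = 2 ∧ s' = 2) ∨ (s = 0 ∧ s' = 2))
    (e1 : c (a 1) - c (a 0) = s) (e2 : c (a 2) - c (a 0) = s') :
    ∃ c' τ', Strict (side G X) c' τ' ∧ τ' (a 0) < τ' (a 1) ∧ τ' (a 1) < τ' (a 2) ∧
      ¬ (c' (a 1) - c' (a 0) = s ∧ c' (a 2) - c' (a 0) = s') := by
  rw [sub_eq_iff_eq_add'] at e1 e2
  have z1 : ∀ x : ZMod 3, x + 0 = x := add_zero
  rcases hM with ⟨rfl, rfl⟩ | ⟨rfl, rfl⟩ | ⟨rfl, rfl⟩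
  · -- the middle vertex is `a 1`
    have hna : ¬ G.Adj (a 0) (a 2) := by
      intro hadj
      rcases hs _ _ ⟨hadj, hc.hX 0, hc.hX 2⟩ with ⟨h5, -⟩ | ⟨h5, -⟩ <;>
        (rw [e2] at h5; revert h5; generalize c (a 0) = x; revert x; decide)
    obtain ⟨c', τ', g, m1, m2, z, u, u1, u2, u3, u4⟩ := hc.gad h (i := 1) (j := 0) (k := 2)
      (by decide) (by decide) (by decide) hna
    refine ⟨c', τ', g, m1, m2, ?_⟩
    rintro ⟨f1, f2⟩
    rw [sub_eq_iff_eq_add', add_zero] at f1 f2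
    exact excl2 u1 u2 u3 u4 ⟨f1.symm, f2.trans f1.symm, m1, m2⟩
  · -- the middle vertex is `a 2`
    have hna : ¬ G.Adj (a 0) (a 1) := by
      intro hadj
      rcases hs _ _ ⟨hadj, hc.hX 0, hc.hX 1⟩ with ⟨h5, -⟩ | ⟨-, h5⟩
      · rw [e1] at h5
        revert h5
        generalize c (a 0) = x
        revert x
        decide
      · exact absurd h5 l1.not_gt
    obtain ⟨c', τ', g, m1, m2, z, u, u1, u2, u3, u4⟩ := hc.gad h (i := 2) (j := 0) (k := 1)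
      (by decide) (by decide) (by decide) hna
    refine ⟨c', τ', g, m1, m2, ?_⟩
    rintro ⟨f1, f2⟩
    rw [sub_eq_iff_eq_add'] at f1 f2
    exact excl3 u1 u2 u3 u4 ⟨f1, f2, m1, m2⟩
  · -- the middle vertex is `a 0`
    have hna : ¬ G.Adj (a 1) (a 2) := by
      intro hadj
      rcases hs _ _ ⟨hadj, hc.hX 1, hc.hX 2⟩ with ⟨h5, -⟩ | ⟨-, h5⟩
      · rw [e1, e2] at h5
        revert h5
        generalize c (a 0) = x
        revert x
        decide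
      · exact absurd h5 l2.not_gt
    obtain ⟨c', τ', g, m1, m2, z, u, u1, u2, u3, u4⟩ := hc.gad h (i := 0) (j := 1) (k := 2)
      (by decide) (by decide) (by decide) hna
    refine ⟨c', τ', g, m1, m2, ?_⟩
    rintro ⟨f1, f2⟩
    rw [sub_eq_iff_eq_add'] at f1 f2
    rw [add_zero] at f1
    exact excl1 u1 u2 u3 u4 ⟨f1, f2, m1, m2⟩

theorem Cut3.cut' {X : V → Prop} {a b : Fin 3 → V} (hc : Cut3 G X a b) (u v : V) (hu : X u)
    (hv : ¬ X v) (huv : G.Adj u v) :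
    (u = a 0 ∧ v = b 0) ∨ (u = a 1 ∧ v = b 1) ∨ (u = a 2 ∧ v = b 2) := by
  obtain ⟨i, hi⟩ := hc.cut u v hu hv huv
  fin_cases i
  · exact Or.inl hi
  · exact Or.inr (Or.inl hi)
  · exact Or.inr (Or.inr hi)

/-- **There is no cut with three edges with distinct ends.** -/
theorem MinCex.no_cut3 (h : MinCex G) {X : V → Prop} {a b : Fin 3 → V} (hc : Cut3 G X a b) :
    False := by
  have hc' := hc.compl
  have s1 : StrictCol (side G X) := h.sub (side_le _ _) (hc.adj 0) fun h5 => hc.hY 0 h5.2.2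
  have s2 : StrictCol (side G fun v => ¬ X v) :=
    h.sub (side_le _ _) (hc.adj 0) fun h5 => h5.2.1 (hc.hX 0)
  obtain ⟨c1, τ1, g1, l1, l2⟩ := normal3 s1
    (x := a 0) (y := a 1) (z := a 2) (fun h5 => absurd (hc.ia h5) (by decide))
    (fun h5 => absurd (hc.ia h5) (by decide)) (fun h5 => absurd (hc.ia h5) (by decide))
  obtain ⟨c2, τ2, g2, m1, m2⟩ := normal3 s2
    (x := b 0) (y := b 1) (z := b 2) (fun h5 => absurd (hc.ib h5) (by decide))
    (fun h5 => absurd (hc.ib h5) (by decide)) (fun h5 => absurd (hc.ib h5) (by decide))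
  by_cases hE : Exc (c1 (a 1) - c1 (a 0)) (c1 (a 2) - c1 (a 0)) (c2 (b 1) - c2 (b 0))
      (c2 (b 2) - c2 (b 0))
  · -- change the colouring on one side
    have side1 : ∀ s s' : ZMod 3, ((s = 0 ∧ s' = 0) ∨ (s = 2 ∧ s' = 2) ∨ (s = 0 ∧ s' = 2)) →
        c1 (a 1) - c1 (a 0) = s → c1 (a 2) - c1 (a 0) = s' →
        (∀ x y, Exc x y (c2 (b 1) - c2 (b 0)) (c2 (b 2) - c2 (b 0)) → x = s ∧ y = s') →
        False := by
      intro s s' hM e1 e2 hx
      obtain ⟨c', τ', f, n1, n2, f1⟩ := hc.alt h g1 l1 l2 hM e1 e2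
      exact h.bad (glue3 X f g2 n1 n2 m1 m2 (fun h5 => f1 (hx _ _ h5)) hc.cut')
    have side2 : ∀ s s' : ZMod 3, ((s = 0 ∧ s' = 0) ∨ (s = 2 ∧ s' = 2) ∨ (s = 0 ∧ s' = 2)) →
        c2 (b 1) - c2 (b 0) = s → c2 (b 2) - c2 (b 0) = s' →
        (∀ x y, Exc (c1 (a 1) - c1 (a 0)) (c1 (a 2) - c1 (a 0)) x y → x = s ∧ y = s') →
        False := by
      intro s s' hM e1 e2 hx
      obtain ⟨c', τ', f, n1, n2, f1⟩ := hc'.alt h g2 m1 m2 hM e1 e2
      exact h.bad (glue3 X g1 f l1 l2 n1 n2 (fun h5 => f1 (hx _ _ h5)) hc.cut')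
    rcases hE with ⟨e1, e2, e3, e4⟩ | ⟨e1, e2, e3, e4⟩ | ⟨e1, e2, e3, e4⟩ | ⟨e1, e2, e3, e4⟩ |
      ⟨e1, e2, e3, e4⟩ | ⟨e1, e2, e3, e4⟩
    · exact side1 0 0 (by decide) e1 e2 (by rw [e3, e4]; decide)
    · exact side2 0 0 (by decide) e3 e4 (by rw [e1, e2]; decide)
    · exact side1 2 2 (by decide) e1 e2 (by rw [e3, e4]; decide)
    · exact side2 2 2 (by decide) e3 e4 (by rw [e1, e2]; decide)
    · exact side1 0 2 (by decide) e1 e2 (by rw [e3, e4]; decide)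
    · exact side2 0 2 (by decide) e3 e4 (by rw [e1, e2]; decide)
  · exact h.bad (glue3 X g1 g2 l1 l2 m1 m2 hE hc.cut')

end Pool.Agent.Red
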