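import Mathlib
import Pool.Agent.Work.MP_392c8e_co_red.CutThree

/-!
# Cuts with at most three edges, in the form used later
-/

namespace Pool.Agent.Red

open Finset

set_option linter.unusedSectionVars false

variable {V : Type} [Fintype V] [DecidableEq V] {G : SimpleGraph V}

theorem MinCex.small_cut (h : MinCex G) (A : Set V) (hA : (leave G A).ncard ≤ 1) :
    A = ∅ ∨ A = Set.univ := by
  have h1 := h.cut_one A
  refine h.cut_zero A ?_
  rw [← Set.ncard_eq_zero (Set.toFinite _)]
  omega

/-- **Cuts with two edges.** -/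
theorem MinCex.cut_two (h : MinCex G) (A : Set V) (hA : (leave G A).ncard = 2) :
    A.ncard = 1 ∨ Aᶜ.ncard = 1 := by
  -- two cut edges at the same vertex
  have key : ∀ (B : Set V) (a b b' : V), (leave G B).ncard = 2 → a ∈ B → b ∉ B → b' ∉ B →
      G.Adj a b → G.Adj a b' → b ≠ b' → B.ncard = 1 := by
    intro B a b b' hB ha hb hb' hab hab' hbb
    have h1 := leave_erase B ha hb hb' hab hab' hbb (h.deg a)
    rcases h.small_cut (B \ {a}) (by omega) with h2 | h2
    · have h3 : B = {a} := by
        ext x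
        constructor
        · intro hx
          by_contra h4
          have : x ∈ B \ {a} := ⟨hx, h4⟩
          rw [h2] at this
          exact this
        · intro hx
          have : x = a := hx
          rw [this]
          exact ha
      rw [h3, Set.ncard_singleton]
    · exfalso
      have : b ∈ B \ {a} := by rw [h2]; exact Set.mem_univ b
      exact hb this.1
  obtain ⟨⟨a1, b1⟩, ⟨a2, b2⟩, hne, hL⟩ := Set.ncard_eq_two.1 hA
  have m1 : (a1, b1) ∈ leave G A := by rw [hL]; exact Or.inl rfl
  have m2 : (a2, b2) ∈ leave G A := by rw [hL]; exact Or.inr rfl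
  obtain ⟨ha1, hb1, hadj1⟩ := m1
  obtain ⟨ha2, hb2, hadj2⟩ := m2
  simp only at ha1 hb1 hadj1 ha2 hb2 hadj2
  by_cases ha : a1 = a2
  · subst ha
    exact Or.inl (key A a1 b1 b2 hA ha1 hb1 hb2 hadj1 hadj2 fun h5 => hne (by rw [h5]))
  by_cases hb : b1 = b2
  · subst hb
    exact Or.inr (key Aᶜ b1 a1 a2 (by rw [leave_compl_ncard, hA]) hb1 (not_not.2 ha1)
      (not_not.2 ha2) hadj1.symm hadj2.symm ha)
  exfalso
  refine h.bad (glue2 (· ∈ A) ha hb (h.sub (side_le _ _) hadj1 fun h5 => hb1 h5.2.2)
    (h.sub (side_le _ _) hadj1 fun h5 => h5.2.1 ha1) ?_)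
  intro u v hu hv huv
  have : (u, v) ∈ leave G A := ⟨hu, hv, huv⟩
  rw [hL] at this
  rcases this with h5 | h5
  · exact Or.inl (Prod.mk.inj h5)
  · exact Or.inr (Prod.mk.inj (show (u, v) = (a2, b2) from h5))

/-- **Cuts with at most three edges.** -/
theorem MinCex.cut_three (h : MinCex G) (A : Set V) (hA : (leave G A).ncard ≤ 3) :
    A.ncard ≤ 2 ∨ Aᶜ.ncard ≤ 2 := by
  have small : ∀ B : Set V, (leave G B).ncard ≤ 2 →
      B = ∅ ∨ B = Set.univ ∨ B.ncard = 1 ∨ Bᶜ.ncard = 1 := by
    intro B hB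
    by_cases h1 : (leave G B).ncard = 2
    · rcases h.cut_two B h1 with h2 | h2
      · exact Or.inr (Or.inr (Or.inl h2))
      · exact Or.inr (Or.inr (Or.inr h2))
    · rcases h.small_cut B (by omega) with h2 | h2
      · exact Or.inl h2
      · exact Or.inr (Or.inl h2)
  by_cases hA2 : (leave G A).ncard ≤ 2
  · rcases small A hA2 with h2 | h2 | h2 | h2
    · left
      rw [h2, Set.ncard_empty]
      omega
    · right
      rw [h2, Set.compl_univ, Set.ncard_empty]
      omega
    · left; omega
    · right; omega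
  have hA3 : (leave G A).ncard = 3 := by omega
  -- two cut edges at the same vertex
  have key : ∀ (B : Set V) (a b b' : V), (leave G B).ncard = 3 → a ∈ B → b ∉ B → b' ∉ B →
      G.Adj a b → G.Adj a b' → b ≠ b' → B.ncard ≤ 2 := by
    intro B a b b' hB ha hb hb' hab hab' hbb
    have h1 := leave_erase B ha hb hb' hab hab' hbb (h.deg a)
    have h6 : B = insert a (B \ {a}) := by
      rw [Set.insert_sdiff_singleton, Set.insert_eq_of_mem ha]
    have h7 := Set.ncard_insert_le a (B \ {a})
    rw [← h6] at h7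
    rcases small (B \ {a}) (by omega) with h2 | h2 | h2 | h2
    · rw [h2, Set.ncard_empty] at h7
      omega
    · exfalso
      have : b ∈ B \ {a} := by rw [h2]; exact Set.mem_univ b
      exact hb this.1
    · omega
    · exfalso
      have h8 : ({a, b} : Set V) ⊆ (B \ {a})ᶜ := by
        rintro x (rfl | hx)
        · exact fun h9 => h9.2 rfl
        · have : x = b := hx
          rw [this]
          exact fun h9 => hb h9.1
      have h9 := Set.ncard_le_ncard h8 (Set.toFinite _)
      rw [Set.ncard_pair hab.ne, h2] at h9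
      omega
  obtain ⟨⟨a1, b1⟩, ⟨a2, b2⟩, ⟨a3, b3⟩, n12, n13, n23, hL⟩ := Set.ncard_eq_three.1 hA3
  have m1 : (a1, b1) ∈ leave G A := by rw [hL]; exact Or.inl rfl
  have m2 : (a2, b2) ∈ leave G A := by rw [hL]; exact Or.inr (Or.inl rfl)
  have m3 : (a3, b3) ∈ leave G A := by rw [hL]; exact Or.inr (Or.inr rfl)
  obtain ⟨ha1, hb1, hadj1⟩ := m1
  obtain ⟨ha2, hb2, hadj2⟩ := m2
  obtain ⟨ha3, hb3, hadj3⟩ := m3
  simp only at ha1 hb1 hadj1 ha2 hb2 hadj2 ha3 hb3 hadj3
  have hA3' : (leave G Aᶜ).ncard = 3 := by rw [leave_compl_ncard, hA3]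
  by_cases e12 : a1 = a2
  · subst e12
    exact Or.inl (key A a1 b1 b2 hA3 ha1 hb1 hb2 hadj1 hadj2 fun h5 => n12 (by rw [h5]))
  by_cases e13 : a1 = a3
  · subst e13
    exact Or.inl (key A a1 b1 b3 hA3 ha1 hb1 hb3 hadj1 hadj3 fun h5 => n13 (by rw [h5]))
  by_cases e23 : a2 = a3
  · subst e23
    exact Or.inl (key A a2 b2 b3 hA3 ha2 hb2 hb3 hadj2 hadj3 fun h5 => n23 (by rw [h5]))
  by_cases f12 : b1 = b2
  · subst f12
    exact Or.inr (key Aᶜ b1 a1 a2 hA3' hb1 (not_not.2 ha1) (not_not.2 ha2) hadj1.symm hadj2.symm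
      e12)
  by_cases f13 : b1 = b3
  · subst f13
    exact Or.inr (key Aᶜ b1 a1 a3 hA3' hb1 (not_not.2 ha1) (not_not.2 ha3) hadj1.symm hadj3.symm
      e13)
  by_cases f23 : b2 = b3
  · subst f23
    exact Or.inr (key Aᶜ b2 a2 a3 hA3' hb2 (not_not.2 ha2) (not_not.2 ha3) hadj2.symm hadj3.symm
      e23)
  exfalso
  refine h.no_cut3 (X := (· ∈ A)) (a := ![a1, a2, a3]) (b := ![b1, b2, b3])
    ⟨?_, ?_, ?_, ?_, ?_, ?_⟩
  · intro i
    fin_cases i
    · exact ha1
    · exact ha2
    · exact ha3
  · intro i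
    fin_cases i
    · exact hb1
    · exact hb2
    · exact hb3
  · intro i
    fin_cases i
    · exact hadj1
    · exact hadj2
    · exact hadj3
  · intro i j hij
    fin_cases i <;> fin_cases j
    · rfl
    · exact absurd hij e12
    · exact absurd hij e13
    · exact absurd hij.symm e12
    · rfl
    · exact absurd hij e23
    · exact absurd hij.symm e13
    · exact absurd hij.symm e23
    · rfl
  · intro i j hij
    fin_cases i <;> fin_cases j
    · rfl
    · exact absurd hij f12
    · exact absurd hij f13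
    · exact absurd hij.symm f12
    · rfl
    · exact absurd hij f23
    · exact absurd hij.symm f13
    · exact absurd hij.symm f23
    · rfl
  · intro u v hu hv huv
    have : (u, v) ∈ leave G A := ⟨hu, hv, huv⟩
    rw [hL] at this
    rcases this with h5 | h5 | h5
    · exact ⟨0, Prod.mk.inj h5⟩
    · exact ⟨1, Prod.mk.inj h5⟩
    · exact ⟨2, Prod.mk.inj (show (u, v) = (a3, b3) from h5)⟩

/-- There is no bridge. -/
theorem MinCex.no_bridge (h : MinCex G) : ∀ e ∈ G.edgeSet, ¬ G.IsBridge e := by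
  intro e he hb
  induction e using Sym2.ind with
  | _ u v =>
    have huv : G.Adj u v := he
    have hr : ¬ (G.deleteEdges {s(u, v)}).Reachable u v := by
      have h1 := (SimpleGraph.isBridge_iff.1 hb)
      exact h1
    set A : Set V := {w | (G.deleteEdges {s(u, v)}).Reachable u w} with hA
    have h1 : leave G A = {(u, v)} := by
      ext ⟨x, y⟩
      constructor
      · rintro ⟨hx, hy, hxy⟩
        simp only at hx hy hxy
        have h2 : s(x, y) = s(u, v) := by
          by_contra h3
          refine hy (SimpleGraph.Reachable.trans hx (SimpleGraph.Adj.reachable ?_))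
          rw [SimpleGraph.deleteEdges_adj]
          exact ⟨hxy, h3⟩
        rcases Sym2.eq_iff.1 h2 with ⟨rfl, rfl⟩ | ⟨rfl, rfl⟩
        · rfl
        · exact absurd hx hr
      · intro h2
        obtain ⟨rfl, rfl⟩ := Prod.mk.inj (show (x, y) = (u, v) from h2)
        exact ⟨SimpleGraph.Reachable.refl _, hr, huv⟩
    exact h.cut_one A (by rw [h1, Set.ncard_singleton])

end Pool.Agent.Red
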